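import Pool.Agent.Lib.MP_7eef47_al.U.Setup

set_option autoImplicit false
set_option linter.unusedSectionVars false

namespace Pool.Agent.Lib.MP_7eef47_al.U

open Pool.Agent.Lib.MP_b03b3a_al

namespace Tr

section Cayley

variable {G : Type} [Group G]

theorem bdd {α : Type} {A : Set α} (hA : A.Finite) (f : α → ℕ) : ∃ C, ∀ a ∈ A, f a ≤ C := by
  obtain ⟨C, hC⟩ := (hA.image f).bddAbove
  exact ⟨C, fun a ha => hC ⟨a, ha, rfl⟩⟩

theorem conn {S : Set G} (hS : Subgroup.closure S = ⊤) : (SimpleGraph.mulCayley S).Connected := by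
  have step : ∀ x : G, ∀ s ∈ S, (SimpleGraph.mulCayley S).Reachable x (x * s) := by
    intro x s hs
    by_cases h : x = x * s
    · rw [← h]
    · exact ((SimpleGraph.mulCayley_adj' S x (x * s)).2 ⟨h, s, hs, Or.inl rfl⟩).reachable
  have key : ∀ g ∈ Subgroup.closure S, ∀ x : G, (SimpleGraph.mulCayley S).Reachable x (x * g) := by
    intro g hg
    induction hg using Subgroup.closure_induction with
    | mem s hs => exact fun x => step x s hs
    | one => intro x; rw [mul_one]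
    | mul a b _ _ ha hb => intro x; rw [← mul_assoc]; exact (ha x).trans (hb _)
    | inv a _ ha =>
      intro x
      have := (ha (x * a⁻¹)).symm
      rwa [inv_mul_cancel_right] at this
  refine ⟨fun x y => ?_⟩
  have := key (x⁻¹ * y) (hS ▸ Subgroup.mem_top _) x
  rwa [mul_inv_cancel_left] at this

/-- A map that moves generators boundedly is Lipschitz. -/
theorem lip {S : Set G} (hS : Subgroup.closure S = ⊤) {X : Type} (δ : X → X → ℕ)
    (h0 : ∀ x, δ x x = 0) (hc : ∀ x y, δ x y = δ y x) (ht : ∀ x y z, δ x z ≤ δ x y + δ y z)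
    (f : G → X) (C : ℕ) (hf : ∀ x, ∀ s ∈ S, δ (f x) (f (x * s)) ≤ C) (x y : G) :
    δ (f x) (f y) ≤ C * (SimpleGraph.mulCayley S).dist x y := by
  obtain ⟨p, hp⟩ := (conn hS).exists_walk_length_eq_dist x y
  rw [← hp]
  clear hp
  induction p with
  | nil => simp [h0]
  | @cons u v w h p ih =>
    obtain ⟨-, s, hs, h1⟩ := (SimpleGraph.mulCayley_adj' S u v).1 h
    have h2 : δ (f u) (f v) ≤ C := by
      rcases h1 with rfl | rfl
      · exact hf _ s hs
      · rw [hc]; exact hf _ s hs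
    have := ht (f u) (f v) (f w)
    rw [SimpleGraph.Walk.length_cons, mul_add, mul_one]
    omega

theorem dist_mul {S : Set G} (hS : Subgroup.closure S = ⊤) (g x y : G) :
    (SimpleGraph.mulCayley S).dist (g * x) (g * y) = (SimpleGraph.mulCayley S).dist x y := by
  have key : ∀ g x y : G, (SimpleGraph.mulCayley S).dist (g * x) (g * y) ≤
      (SimpleGraph.mulCayley S).dist x y := by
    intro g x y
    have := lip hS (SimpleGraph.mulCayley S).dist (fun _ => SimpleGraph.dist_self)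
      (fun _ _ => SimpleGraph.dist_comm) (fun _ _ _ => (conn hS).dist_triangle)
      (fun x => g * x) 1 (fun x s hs => by
        by_cases h : g * x = g * (x * s)
        · rw [← h]; simp
        · exact (SimpleGraph.dist_eq_one_iff_adj.2
            ((SimpleGraph.mulCayley_adj' S _ _).2 ⟨h, s, hs, Or.inl (mul_assoc _ _ _)⟩)).le) x y
    simpa using this
  refine le_antisymm (key g x y) ?_
  have := key g⁻¹ (g * x) (g * y)
  simpa using this

theorem geod {S : Set G} (hS : Subgroup.closure S = ⊤) (x y : G) :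
    ∃ p : ℕ → G, p 0 = x ∧ p ((SimpleGraph.mulCayley S).dist x y) = y ∧
      ∀ t, p t = p (t + 1) ∨ ∃ s ∈ S, p t * s = p (t + 1) ∨ p t = p (t + 1) * s := by
  obtain ⟨p, hp⟩ := (conn hS).exists_walk_length_eq_dist x y
  refine ⟨p.getVert, p.getVert_zero, hp ▸ p.getVert_length, fun t => ?_⟩
  by_cases h : t < p.length
  · exact Or.inr ((SimpleGraph.mulCayley_adj' S _ _).1 (p.adj_getVert_succ h)).2
  · left
    rw [p.getVert_of_length_le (by omega), p.getVert_of_length_le (by omega)]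

/-- Coset representatives adapted to `H`. -/
theorem exists_rep (G₀ H : Subgroup G) [G₀.FiniteIndex] :
    ∃ t : G → G, (∀ g, g * (t g)⁻¹ ∈ G₀) ∧ (∀ g ∈ G₀, t g = 1) ∧ (∀ g ∈ H, t g ∈ H) ∧
      (Set.range t).Finite := by
  classical
  have ex : ∀ A : Set G, ∃ a : G, (A.Nonempty → a ∈ A) ∧ ((1 : G) ∈ A → a = 1) ∧
      ((∃ h ∈ H, h ∈ A) → a ∈ H) := by
    intro A
    by_cases h1 : (1 : G) ∈ A
    · exact ⟨1, fun _ => h1, fun _ => rfl, fun _ => H.one_mem⟩
    by_cases h2 : ∃ h ∈ H, h ∈ A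
    · obtain ⟨h, hh, hA⟩ := h2
      exact ⟨h, fun _ => hA, fun h' => absurd h' h1, fun _ => hh⟩
    by_cases h3 : A.Nonempty
    · obtain ⟨a, ha⟩ := h3
      exact ⟨a, fun _ => ha, fun h' => absurd h' h1, fun h' => absurd h' h2⟩
    · exact ⟨1, fun h' => absurd h' h3, fun _ => rfl, fun _ => H.one_mem⟩
  choose tt h1 h2 h3 using ex
  have self : ∀ g : G, g ∈ {y : G | g * y⁻¹ ∈ G₀} := fun g => by simp
  refine ⟨fun g => tt {y | g * y⁻¹ ∈ G₀}, fun g => h1 _ ⟨g, self g⟩, fun g hg => h2 _ (by simpa),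
    fun g hg => h3 _ ⟨g, hg, self g⟩, ?_⟩
  refine (Set.finite_range fun q : G ⧸ G₀ => tt {y | (q.out)⁻¹ * y⁻¹ ∈ G₀}).subset ?_
  rintro _ ⟨g, rfl⟩
  refine ⟨QuotientGroup.mk g⁻¹, ?_⟩
  obtain ⟨k, hk⟩ := QuotientGroup.mk_out_eq_mul G₀ g⁻¹
  simp only [hk]
  congr 1
  ext y
  simp only [Set.mem_ofPred_eq, mul_inv_rev, inv_inv, mul_assoc]
  exact G₀.mul_mem_cancel_left (G₀.inv_mem k.2)

end Cayley

variable {M : Type} [Finite M] (R : RG M) {G : Type} [Group G]

theorem d_one (x y : R.W) : d R x y = d R 1 (x⁻¹ * y) := by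
  rw [← d_mul R x⁻¹ x y, inv_mul_cancel]

theorem upper {G₀ : Subgroup G} (ι : G₀ →* R.W) {t : G → G} (ht : (Set.range t).Finite)
    (ψ : G → G₀) (hψ : ∀ g, (ψ g : G) = g * (t g)⁻¹) {F : Set G} (hF : F.Finite) :
    ∃ C, ∀ g, ∀ s ∈ F, d R (ι (ψ g)) (ι (ψ (g * s))) ≤ C := by
  have hE : ((fun p : G × G × G => p.1 * p.2.1 * p.2.2⁻¹) ''
      (Set.range t ×ˢ F ×ˢ Set.range t)).Finite := (ht.prod (hF.prod ht)).image _
  obtain ⟨C, hC⟩ := bdd (hE.preimage (f := fun k : G₀ => (k : G)) Subtype.val_injective.injOn)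
    (fun k => d R 1 (ι k))
  refine ⟨C, fun g s hs => ?_⟩
  rw [d_one, ← map_inv, ← map_mul]
  refine hC _ ⟨(t g, s, t (g * s)), ⟨⟨_, rfl⟩, hs, ⟨_, rfl⟩⟩, ?_⟩
  simp only [Subgroup.coe_mul, Subgroup.coe_inv, hψ]
  group

theorem lower {G₀ : Subgroup G} (ι : G₀ →* R.W) (hι : Function.Injective ι) {S : Set G}
    (hS : Subgroup.closure S = ⊤) {Y : Set R.W} {q : ℕ} (hGY : ∀ k, ι k ∈ Y)
    (hconv : ∀ x ∈ Y, ∀ y ∈ Y, ∀ z, Btw R x z y → z ∈ Y) (hnear : ∀ y ∈ Y, ∃ k, d R (ι k) y ≤ q) :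
    ∃ C, ∀ x y : G₀, (SimpleGraph.mulCayley S).dist (x : G) y ≤ C * d R (ι x) (ι y) + C := by
  obtain ⟨C, hC⟩ := bdd ((ball_finite R (2 * q + 1)).preimage (f := ι) hι.injOn)
    (fun k => (SimpleGraph.mulCayley S).dist 1 (k : G))
  have small : ∀ x y : G₀, d R (ι x) (ι y) ≤ 2 * q + 1 →
      (SimpleGraph.mulCayley S).dist (x : G) y ≤ C := by
    intro x y h
    rw [d_one, ← map_inv, ← map_mul] at h
    have := hC (x⁻¹ * y) h
    rw [← dist_mul hS (x : G)] at this
    simpa using this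
  have key : ∀ n : ℕ, ∀ z ∈ Y, ∀ x y : G₀, d R (ι x) z ≤ q → d R z (ι y) = n →
      (SimpleGraph.mulCayley S).dist (x : G) y ≤ C * n + C := by
    intro n
    induction n with
    | zero =>
      intro z _ x y h1 h2
      rw [eq_of_d R h2] at h1
      have := small x y (by omega)
      omega
    | succ n ih =>
      intro z hz x y h1 h2
      have hne : z ≠ ι y := by
        intro h
        rw [h, d_self] at h2
        omega
      obtain ⟨i, hb, hd⟩ := exists_step R hne
      have hz' := hconv z hz _ (hGY y) _ hb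
      obtain ⟨k, hk⟩ := hnear _ hz'
      have h3 := ih _ hz' k y hk (by omega)
      have h4 : d R (ι x) (ι k) ≤ 2 * q + 1 := by
        have a1 := d_tri R (ι x) z (ι k)
        have a2 := d_tri R z (z * R.s i) (ι k)
        have a3 := d_step R z i
        have a4 := d_comm R (ι k) (z * R.s i)
        omega
      have h5 := small x k h4
      have h6 : (SimpleGraph.mulCayley S).dist (x : G) y ≤
          (SimpleGraph.mulCayley S).dist (x : G) k + (SimpleGraph.mulCayley S).dist (k : G) y :=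
        (conn hS).dist_triangle
      rw [mul_add, mul_one]
      omega
  exact ⟨C, fun x y => key _ (ι x) (hGY x) x y (by rw [d_self]; omega) rfl⟩

theorem lower_all {G₀ : Subgroup G} (ι : G₀ →* R.W) {S : Set G} (hS : Subgroup.closure S = ⊤)
    {t : G → G} (ht : (Set.range t).Finite) (ψ : G → G₀) (hψ : ∀ g, (ψ g : G) = g * (t g)⁻¹)
    {C : ℕ}
    (hC : ∀ x y : G₀, (SimpleGraph.mulCayley S).dist (x : G) y ≤ C * d R (ι x) (ι y) + C) :
    ∃ C', ∀ x y : G,
      (SimpleGraph.mulCayley S).dist x y ≤ C' * d R (ι (ψ x)) (ι (ψ y)) + C' := by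
  obtain ⟨B, hB⟩ := bdd ht (fun a => (SimpleGraph.mulCayley S).dist 1 a⁻¹)
  have near : ∀ x : G, (SimpleGraph.mulCayley S).dist x (ψ x) ≤ B := by
    intro x
    have := hB _ ⟨x, rfl⟩
    rw [← dist_mul hS x, mul_one] at this
    rw [hψ]
    exact this
  refine ⟨C + 2 * B, fun x y => ?_⟩
  have a1 : (SimpleGraph.mulCayley S).dist x y ≤ (SimpleGraph.mulCayley S).dist x (ψ x) +
      (SimpleGraph.mulCayley S).dist (ψ x : G) y := (conn hS).dist_triangle
  have a2 : (SimpleGraph.mulCayley S).dist (ψ x : G) y ≤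
      (SimpleGraph.mulCayley S).dist (ψ x : G) (ψ y) +
      (SimpleGraph.mulCayley S).dist (ψ y : G) y := (conn hS).dist_triangle
  have a3 := near x
  have a4 := near y
  rw [SimpleGraph.dist_comm] at a4
  have a5 := hC (ψ x) (ψ y)
  rw [add_mul]
  omega

/-- From the discrete Morse property to strong quasiconvexity. -/
theorem sqc {S : Set G} (hS : Subgroup.closure S = ⊤) {H : Subgroup G} (U : Setup R)
    (hM : Morse U) (φ : G → R.W) (hY : ∀ g, φ g ∈ U.Y) (hH : ∀ g ∈ H, φ g ∈ U.H)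
    (hH' : ∀ w ∈ U.H, ∃ g ∈ H, φ g = w) {A B : ℕ}
    (hA : ∀ x y, d R (φ x) (φ y) ≤ A * (SimpleGraph.mulCayley S).dist x y)
    (hB : ∀ x y, (SimpleGraph.mulCayley S).dist x y ≤ B * d R (φ x) (φ y) + B) :
    StronglyQuasiconvex S H := by
  intro K C hK hC
  obtain ⟨N, hN⟩ := exists_nat_ge (K + C)
  obtain ⟨M₀, hM₀⟩ := hM (A * N + N * B + N * N + 1)
  refine ⟨N + (B * M₀ + B : ℕ), fun γ a b hγ ha hb t ht => ?_⟩
  obtain ⟨hab, hγ⟩ := hγ
  have close : ∀ s ∈ Set.Icc a b, ∀ u ∈ Set.Icc a b, |s - u| ≤ 1 →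
      (SimpleGraph.mulCayley S).dist (γ s) (γ u) ≤ N := by
    intro s hs u hu h
    have h1 := (hγ s hs u hu).2
    have h2 : K * |s - u| ≤ K := by nlinarith
    unfold wordDist at h1
    exact_mod_cast (by linarith : ((SimpleGraph.mulCayley S).dist (γ s) (γ u) : ℝ) ≤ N)
  have hτ : ∀ i : ℕ, min (a + i) b ∈ Set.Icc a b := fun i =>
    ⟨le_min (by have : (0 : ℝ) ≤ i := Nat.cast_nonneg i; linarith) hab, min_le_right _ _⟩
  have hn := Nat.ceil_lt_add_one (sub_nonneg.2 hab)
  have hn' := Nat.le_ceil (b - a)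
  have main := hM₀ ⌈b - a⌉₊ (fun i => φ (γ (min (a + i) b))) (fun i => hY _) (fun i => by
      have h1 := close _ (hτ i) _ (hτ (i + 1)) (by
        rw [abs_le]
        push_cast
        rcases le_total (a + i) b with h | h <;> rcases le_total (a + (i + 1)) b with h' | h' <;>
          simp only [min_eq_left, min_eq_right, h, h'] <;> constructor <;> linarith)
      have h2 := hA (γ (min (a + i) b)) (γ (min (a + (i + 1 : ℕ)) b))
      have h3 := Nat.mul_le_mul_left A h1
      omega)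
    (fun i j hij hj => by
      have h1 := (hγ _ (hτ i) _ (hτ j)).1
      have h2 := hB (γ (min (a + i) b)) (γ (min (a + j) b))
      generalize d R (φ (γ (min (a + i) b))) (φ (γ (min (a + j) b))) = e at h2 ⊢
      unfold wordDist at h1
      generalize (SimpleGraph.mulCayley S).dist (γ (min (a + i) b)) (γ (min (a + j) b)) = D
        at h1 h2
      have hj' : (j : ℝ) ≤ ⌈b - a⌉₊ := by exact_mod_cast hj
      have h3 : (j : ℝ) - i - 1 ≤ |min (a + i) b - min (a + j) b| := by
        rw [abs_sub_comm]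
        refine le_trans ?_ (le_abs_self _)
        have b1 : min (a + i) b ≤ a + i := min_le_left _ _
        have b2 : a + j - 1 ≤ min (a + j) b := le_min (by linarith) (by linarith)
        linarith
      have h4 : |min (a + i) b - min (a + j) b| ≤ (D + C) * K := by
        rw [← div_le_iff₀ (by linarith)]
        linarith
      have hD : (0 : ℝ) ≤ D := Nat.cast_nonneg D
      have h5 : ((D : ℝ) + C) * K ≤ (D + N) * N :=
        mul_le_mul (by linarith) (by linarith) (by linarith) (by linarith)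
      have h6 : j ≤ i + 1 + (D + N) * N := by
        exact_mod_cast (by linarith : (j : ℝ) ≤ i + 1 + (D + N) * N)
      have h7 : (D + N) * N ≤ (B * e + B + N) * N := Nat.mul_le_mul_right N (by omega)
      have h8 : (B * e + B + N) * N = N * B * e + N * B + N * N := by ring
      have h9 : (A * N + N * B + N * N + 1) * e = N * B * e + (A * N + N * N + 1) * e := by ring
      omega)
    (by simp only [Nat.cast_zero, add_zero, min_eq_left hab]; exact hH _ ha)
    (by rw [min_eq_right (by linarith)]; exact hH _ hb)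
  have hf := Nat.floor_le (sub_nonneg.2 ht.1)
  have hf' := Nat.lt_floor_add_one (t - a)
  obtain ⟨w, hw, hd⟩ := main ⌊t - a⌋₊
    ((Nat.floor_mono (by linarith [ht.2])).trans (Nat.floor_le_ceil (b - a)))
  obtain ⟨g, hg, rfl⟩ := hH' w hw
  refine ⟨g, hg, ?_⟩
  have h1 := close t ht _ (hτ ⌊t - a⌋₊) (by
    rw [min_eq_left (by linarith [ht.2]), abs_le]
    constructor <;> linarith)
  have h2 := hB g (γ (min (a + ⌊t - a⌋₊) b))
  have h3 := Nat.mul_le_mul_left B hd
  have h4 : (SimpleGraph.mulCayley S).dist (γ t) g ≤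
      (SimpleGraph.mulCayley S).dist (γ t) (γ (min (a + ⌊t - a⌋₊) b)) +
      (SimpleGraph.mulCayley S).dist (γ (min (a + ⌊t - a⌋₊) b)) g := (conn hS).dist_triangle
  rw [SimpleGraph.dist_comm] at h2
  unfold wordDist
  exact_mod_cast (by omega : (SimpleGraph.mulCayley S).dist (γ t) g ≤ N + (B * M₀ + B))

theorem transfer_W (h : ∀ U : Setup R, Morse U) (G₀ : Subgroup G) [G₀.FiniteIndex]
    (ι : G₀ →* R.W) (hι : Function.Injective ι) {Y : Set R.W} {q : ℕ} (hGY : ∀ k, ι k ∈ Y)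
    (hconv : ∀ x ∈ Y, ∀ y ∈ Y, ∀ z, Btw R x z y → z ∈ Y) (hnear : ∀ y ∈ Y, ∃ k, d R (ι k) y ≤ q)
    {S : Set G} (hfin : S.Finite) (hS : Subgroup.closure S = ⊤) {H : Subgroup G}
    (hU : Undistorted S H) (hm : CentralizerFinite H) : StronglyQuasiconvex S H := by
  obtain ⟨t, ht1, ht2, ht3, ht⟩ := exists_rep G₀ H
  obtain ⟨ψ, hψ⟩ : ∃ ψ : G → G₀, ∀ g, (ψ g : G) = g * (t g)⁻¹ :=
    ⟨fun g => ⟨_, ht1 g⟩, fun _ => rfl⟩
  have ψ0 : ∀ k : G₀, ψ k = k := fun k => Subtype.ext (by rw [hψ, ht2 _ k.2]; simp)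
  have ψH : ∀ g ∈ H, ι (ψ g) ∈ (H.subgroupOf G₀).map ι := fun g hg =>
    ⟨ψ g, Subgroup.mem_subgroupOf.2 (by rw [hψ]; exact H.mul_mem hg (H.inv_mem (ht3 g hg))), rfl⟩
  obtain ⟨A, hA⟩ := upper R ι ht ψ hψ hfin
  obtain ⟨C, hC⟩ := lower R ι hι hS hGY hconv hnear
  obtain ⟨B, hB⟩ := lower_all R ι hS ht ψ hψ hC
  obtain ⟨T, K, hT, hTc, hK⟩ := hU
  obtain ⟨E, hE⟩ := upper R ι ht ψ hψ (hT.image (fun x : H => (x : G)))
  obtain ⟨N, hN⟩ := exists_nat_ge K
  let U : Setup R :=
    { G := ι.range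
      H := (H.subgroupOf G₀).map ι
      Y := {y | ∀ k, ι k * y ∈ Y}
      q := q
      K := E + N * C + N + 1
      K_pos := by omega
      HG := Subgroup.map_le_range _ _
      GY := by
        rintro _ ⟨k, rfl⟩ l
        rw [← map_mul]
        exact hGY _
      conv := by
        intro x hx y hy z hz k
        refine hconv _ (hx k) _ (hy k) _ ?_
        rw [btw_iff] at hz ⊢
        rwa [d_mul, d_mul, d_mul]
      inv := by
        rintro _ ⟨k, rfl⟩ y hy l
        rw [← mul_assoc, ← map_mul]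
        exact hy _
      near := by
        intro y hy
        have := hy 1
        rw [map_one, one_mul] at this
        obtain ⟨k, hk⟩ := hnear y this
        exact ⟨ι k, ⟨k, rfl⟩, hk⟩
      vc := by
        rintro _ ⟨a, ha, rfl⟩ ho
        have ho' : ¬ IsOfFinOrder (a : G) := fun h' => ho (ι.isOfFinOrder
          ((Function.Injective.isOfFinOrder_iff (f := G₀.subtype) G₀.subtype_injective).1 h'))
        obtain ⟨F, hF, hF'⟩ := hm a (Subgroup.mem_subgroupOf.1 ha) ho'
        have rep : ∀ u : G, ∃ k : G₀, ∀ l : G₀, (l : G) * u⁻¹ ∈ H → (k : G) * u⁻¹ ∈ H := fun u => by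
          by_cases h' : ∃ k : G₀, (k : G) * u⁻¹ ∈ H
          · obtain ⟨k, hk⟩ := h'
            exact ⟨k, fun _ _ => hk⟩
          · exact ⟨1, fun l hl => absurd ⟨l, hl⟩ h'⟩
        choose κ hκ using rep
        refine ⟨(fun u => ι (κ u)) '' F, hF.image _, ?_⟩
        rintro _ ⟨l, rfl⟩ hl
        rw [← map_mul, ← map_mul] at hl
        obtain ⟨u, hu, hu'⟩ := hF' l (congrArg Subtype.val (hι hl))
        refine ⟨_, ⟨u, hu, rfl⟩, l * (κ u)⁻¹, Subgroup.mem_subgroupOf.2 ?_, by simp⟩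
        have := H.mul_mem hu' (H.inv_mem (hκ u l hu'))
        simpa using this
      path := by
        rintro _ ⟨a, ha, rfl⟩ _ ⟨b, hb, rfl⟩
        have ha' : (a : G) ∈ H := Subgroup.mem_subgroupOf.1 ha
        have hb' : (b : G) ∈ H := Subgroup.mem_subgroupOf.1 hb
        obtain ⟨p, p0, p1, ps⟩ := geod hTc ⟨a, ha'⟩ ⟨b, hb'⟩
        refine ⟨(SimpleGraph.mulCayley T).dist ⟨a, ha'⟩ ⟨b, hb'⟩, fun n => ι (ψ (p n)), ?_, ?_,
          fun n => ψH _ (p n).2, fun n => ?_, ?_⟩
        · simp only [p0, ψ0]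
        · simp only [p1, ψ0]
        · rcases ps n with e | ⟨s, hs, e | e⟩
          · simp only [← e, d_self]; omega
          · have := hE (p n) s ⟨s, hs, rfl⟩
            rw [← Subgroup.coe_mul, e] at this
            exact this.trans (by omega)
          · have := hE (p (n + 1)) s ⟨s, hs, rfl⟩
            rw [← Subgroup.coe_mul, ← e, d_comm] at this
            exact this.trans (by omega)
        · have h1 := hK ⟨a, ha'⟩ ⟨b, hb'⟩
          have h2 := hC a b
          unfold wordDist at h1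
          simp only at h1
          generalize (SimpleGraph.mulCayley T).dist ⟨a, ha'⟩ ⟨b, hb'⟩ = n at h1 ⊢
          generalize (SimpleGraph.mulCayley S).dist (a : G) b = D at h1 h2
          generalize d R (ι a) (ι b) = e at h2 ⊢
          have hD : (0 : ℝ) ≤ D := Nat.cast_nonneg D
          have h3 : n ≤ N * D + N := by
            exact_mod_cast (by nlinarith : (n : ℝ) ≤ N * D + N)
          have h4 := Nat.mul_le_mul_left N h2
          have h5 : N * (C * e + C) = N * C * e + N * C := by ring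
          have h6 : (E + N * C + N + 1) * e = N * C * e + (E + N + 1) * e := by ring
          omega }
  refine sqc R hS U (h U) (fun g => ι (ψ g)) (fun g => U.GY _ ⟨_, rfl⟩) ψH ?_
    (lip hS (d R) (d_self R) (d_comm R) (d_tri R) (fun g => ι (ψ g)) A hA) hB
  rintro _ ⟨a, ha, rfl⟩
  exact ⟨a, Subgroup.mem_subgroupOf.1 ha, by simp only [ψ0]⟩

end Tr

theorem transfer {M : Type} [Finite M] (R : RG M) (h : ∀ S : Setup R, Morse S) : Final R := by
  intro G _ G₀ _ ι hι hcc S hfin hS H hU hm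
  obtain ⟨Y, q, h1, h2, h3⟩ := hcc
  refine Tr.transfer_W R h G₀ ι hι (Y := Y) (q := q) (fun k => h1 _ ⟨k, rfl⟩)
    (fun x hx y hy z hz => h2 x hx y hy z ((btw_iff R).1 hz)) (fun y hy => ?_) hfin hS hU hm
  obtain ⟨_, ⟨k, rfl⟩, hk⟩ := h3 y hy
  exact ⟨k, hk⟩

end Pool.Agent.Lib.MP_7eef47_al.U
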