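import Pool.Agent.Lib.MP_b03b3a_al.Racg
import Pool.Agent.Lib.MP_6d85b4_al.Roots

set_option autoImplicit false
set_option linter.unusedSectionVars false

namespace Pool.Agent.Lib.MP_7eef47_al.U

open Pool.Agent.Lib.MP_b03b3a_al

variable {M : Type} [Finite M] (R : RG M)

/-- Word distance for the standard generators. -/
noncomputable def d (x y : R.W) : ℕ := R.cs.length (x⁻¹ * y)

/-- `z` lies between `x` and `y`: no wall separates it from both. -/
def Btw (x z y : R.W) : Prop := ∀ r, R.N x r = R.N y r → R.N z r = R.N x r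

/-- The wall `r` has type `i`. -/
def Ty (r : R.W) (i : M) : Prop := ∃ u, r = u * R.s i * u⁻¹

/-- Standard subgroup on a set of letters. -/
noncomputable def Par (L : Set M) : Subgroup R.W := Subgroup.closure (R.s '' L)

/-- Letters adjacent to all letters of `L`. -/
def Perp (L : Set M) : Set M := {j | ∀ i ∈ L, R.adj i j}

theorem N_rel (x y r : R.W) : R.N y r = xor (R.N x r) (R.N (x⁻¹ * y) (x⁻¹ * r * x)) := by
  rw [← R.N_mul, mul_inv_cancel_left]

theorem ne_iff (x y r : R.W) : R.N x r ≠ R.N y r ↔ R.N (x⁻¹ * y) (x⁻¹ * r * x) = true := by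
  rw [N_rel R x y r]
  cases R.N x r <;> cases R.N (x⁻¹ * y) (x⁻¹ * r * x) <;> simp

theorem N_step_ne (x : R.W) (i : M) {r : R.W} (h : r ≠ x * R.s i * x⁻¹) :
    R.N (x * R.s i) r = R.N x r := by
  rw [R.N_mul_s]; simp [h]

theorem N_step_eq (x : R.W) (i : M) :
    R.N (x * R.s i) (x * R.s i * x⁻¹) = !R.N x (x * R.s i * x⁻¹) := by
  rw [R.N_mul_s]; simp

theorem sep_finite (x y : R.W) : {r | R.N x r ≠ R.N y r}.Finite := by
  obtain ⟨S, -, h⟩ := R.N_supp x
  obtain ⟨T, -, h'⟩ := R.N_supp y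
  refine (S.finite_toSet.union T.finite_toSet).subset fun r hr => ?_
  by_contra hn
  simp only [Set.mem_union, Finset.mem_coe, not_or] at hn
  exact hr (by rw [h r hn.1, h' r hn.2])

/-- The walls that separate `x` from `y`. -/
noncomputable def sep (x y : R.W) : Finset R.W := (sep_finite R x y).toFinset

theorem mem_sep {x y r : R.W} : r ∈ sep R x y ↔ R.N x r ≠ R.N y r := by
  simp [sep]

theorem card_sep (x y : R.W) : (sep R x y).card = d R x y := by
  classical
  obtain ⟨ω, hω, e⟩ := R.cs.exists_isReduced (x⁻¹ * y)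
  have hn := hω.nodup_leftInvSeq
  have : sep R x y = (R.cs.leftInvSeq ω).toFinset.image fun t => x * t * x⁻¹ := by
    ext r
    rw [mem_sep, ne_iff, e, R.N_word ω hn, Finset.mem_image]
    constructor
    · intro h
      exact ⟨_, List.mem_toFinset.2 h, by group⟩
    · rintro ⟨t, ht, rfl⟩
      have : x⁻¹ * (x * t * x⁻¹) * x = t := by group
      rw [this]; exact List.mem_toFinset.1 ht
  rw [this, Finset.card_image_of_injective, List.toFinset_card_of_nodup hn,
    CoxeterSystem.length_leftInvSeq, d, e, hω]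
  intro a b h
  simpa using h

theorem d_self (x : R.W) : d R x x = 0 := by simp [d]

theorem d_comm (x y : R.W) : d R x y = d R y x := by
  rw [d, d, ← R.cs.length_inv]; simp

theorem d_tri (x y z : R.W) : d R x z ≤ d R x y + d R y z := by
  have := R.cs.length_mul_le (x⁻¹ * y) (y⁻¹ * z)
  rwa [mul_assoc, mul_inv_cancel_left] at this

theorem d_mul (g x y : R.W) : d R (g * x) (g * y) = d R x y := by
  simp [d, mul_assoc]

theorem eq_of_d {x y : R.W} (h : d R x y = 0) : x = y := inv_mul_eq_one.mp (R.cs.length_eq_zero_iff.1 h)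

theorem d_step (x : R.W) (i : M) : d R x (x * R.s i) = 1 := by
  rw [d, inv_mul_cancel_left]; exact R.cs.length_simple i

theorem btw_iff {x z y : R.W} : Btw R x z y ↔ d R x z + d R z y = d R x y := by
  classical
  rw [← card_sep, ← card_sep, ← card_sep]
  have h1 := Finset.card_union_add_card_inter (sep R x z) (sep R z y)
  have h2 : sep R x z ∪ sep R z y = sep R x y ∪ (sep R x z ∩ sep R z y) := by
    ext r
    simp only [Finset.mem_union, Finset.mem_inter, mem_sep]
    cases R.N x r <;> cases R.N y r <;> cases R.N z r <;> simp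
  have h3 : Disjoint (sep R x y) (sep R x z ∩ sep R z y) := by
    rw [Finset.disjoint_left]
    intro r
    simp only [Finset.mem_inter, mem_sep]
    cases R.N x r <;> cases R.N y r <;> cases R.N z r <;> simp
  rw [h2, Finset.card_union_of_disjoint h3] at h1
  have h4 : Btw R x z y ↔ (sep R x z ∩ sep R z y).card = 0 := by
    rw [Finset.card_eq_zero, Finset.eq_empty_iff_forall_notMem]
    refine forall_congr' fun r => ?_
    simp only [Finset.mem_inter, mem_sep]
    cases R.N x r <;> cases R.N y r <;> cases R.N z r <;> simp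
  rw [h4]; omega

theorem btw_step {x y : R.W} {i : M} (h : R.N x (x * R.s i * x⁻¹) ≠ R.N y (x * R.s i * x⁻¹)) :
    Btw R x (x * R.s i) y := by
  intro r hr
  exact N_step_ne R x i (by rintro rfl; exact h hr)

theorem d_step_of_ne {x y : R.W} {i : M}
    (h : R.N x (x * R.s i * x⁻¹) ≠ R.N y (x * R.s i * x⁻¹)) :
    d R (x * R.s i) y + 1 = d R x y := by
  have := (btw_iff R).1 (btw_step R h)
  rw [d_step] at this
  omega

theorem d_step_of_eq {x y : R.W} {i : M}
    (h : R.N x (x * R.s i * x⁻¹) = R.N y (x * R.s i * x⁻¹)) :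
    d R (x * R.s i) y = d R x y + 1 := by
  have e : x * R.s i * R.s i * (x * R.s i)⁻¹ = x * R.s i * x⁻¹ := by
    rw [mul_inv_rev, R.s_inv, mul_assoc x, R.s_s, mul_one, mul_assoc]
  have := d_step_of_ne R (x := x * R.s i) (y := y) (i := i) (by
    rw [e, N_step_eq, h]; simp)
  rw [mul_assoc, R.s_s, mul_one] at this
  exact this.symm

theorem exists_wall {x y : R.W} (h : x ≠ y) :
    ∃ i, R.N x (x * R.s i * x⁻¹) ≠ R.N y (x * R.s i * x⁻¹) := by
  obtain ⟨i, hi⟩ := R.cs.exists_leftDescent_of_ne_one (w := x⁻¹ * y)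
    (fun e => h (inv_mul_eq_one.mp e))
  refine ⟨i, fun e => ?_⟩
  have := d_step_of_eq R e
  rw [d, d, mul_inv_rev, R.s_inv, mul_assoc] at this
  have h2 : R.cs.length (R.s i * (x⁻¹ * y)) < R.cs.length (x⁻¹ * y) := hi
  omega

/-- First step of a geodesic. -/
theorem exists_step {x y : R.W} (h : x ≠ y) :
    ∃ i, Btw R x (x * R.s i) y ∧ d R (x * R.s i) y + 1 = d R x y := by
  obtain ⟨i, hi⟩ := exists_wall R h
  exact ⟨i, btw_step R hi, d_step_of_ne R hi⟩

theorem exists_btw_d {x y : R.W} {k : ℕ} (h : k ≤ d R x y) : ∃ z, Btw R x z y ∧ d R x z = k := by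
  induction k with
  | zero => exact ⟨x, fun _ _ => rfl, d_self R x⟩
  | succ k ih =>
    obtain ⟨z, hz, hd⟩ := ih (by omega)
    rw [btw_iff] at hz
    obtain ⟨i, -, hi⟩ := exists_step R (x := z) (y := y) (by
      rintro rfl; rw [d_self] at hz; omega)
    have h1 := d_tri R x z (z * R.s i)
    have h2 := d_tri R x (z * R.s i) y
    rw [d_step] at h1
    exact ⟨z * R.s i, (btw_iff R).2 (by omega), by omega⟩

theorem ball_finite (n : ℕ) : {w : R.W | d R 1 w ≤ n}.Finite := by
  refine ((List.finite_length_le M n).image R.cs.wordProd).subset fun w hw => ?_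
  obtain ⟨ω, hω, rfl⟩ := R.cs.exists_isReduced w
  refine ⟨ω, ?_, rfl⟩
  have h1 : R.cs.length (R.cs.wordProd ω) = ω.length := hω
  simp only [d, inv_one, one_mul, Set.mem_ofPred_eq] at hw ⊢
  omega

theorem N_conj (g x y r : R.W) :
    R.N (g * x) (g * r * g⁻¹) = R.N (g * y) (g * r * g⁻¹) ↔ R.N x r = R.N y r := by
  rw [R.N_mul, R.N_mul]
  have : g⁻¹ * (g * r * g⁻¹) * g = r := by group
  rw [this]
  cases R.N g (g * r * g⁻¹) <;> simp

theorem ty_of_sep {x y r : R.W} (h : R.N x r ≠ R.N y r) : ∃ i, Ty R r i := by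
  obtain ⟨S, h1, h2⟩ := R.N_supp x
  obtain ⟨T, h3, h4⟩ := R.N_supp y
  by_cases a : r ∈ S
  · obtain ⟨u, i, e⟩ := h1 r a; exact ⟨i, u, e⟩
  by_cases b : r ∈ T
  · obtain ⟨u, i, e⟩ := h3 r b; exact ⟨i, u, e⟩
  exact absurd (by rw [h2 r a, h4 r b]) h

theorem ty_unique {r : R.W} {i j : M} (hi : Ty R r i) (hj : Ty R r j) : i = j := by
  obtain ⟨u, rfl⟩ := hi
  obtain ⟨v, e⟩ := hj
  exact R.conj_inj e

open Pool.Agent.Lib.MP_6d85b4_al in
/-- Two different descents commute. -/
theorem desc_adj' {w : R.W} {i j : M} (hij : i ≠ j) (hi : R.cs.IsRightDescent w i)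
    (hj : R.cs.IsRightDescent w j) : R.adj i j := by
  classical
  cases nonempty_fintype M
  by_contra hn
  have rm : ∀ (w : R.W) k x, rho R.cm (w * R.s k) x = rho R.cm w (rf R.cm k x) := by
    intro w k x
    rw [← rho_simple]
    exact rho_mul R.cm w _ x
  have neg : ∀ (w : R.W) k, R.cs.IsRightDescent w k → Pos (-rho R.cm w (al k)) := by
    intro w k h
    have : Pos (rho R.cm (w * R.s k) (al k)) := pos_of_not_descent R.cm _ k
      ((R.cm.toCoxeterSystem.isRightDescent_iff_not_isRightDescent_mul).1 h)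
    rwa [rm, rf_self, map_neg] at this
  have desc : ∀ (w : R.W) k, Pos (-rho R.cm w (al k)) → R.cs.IsRightDescent w k := by
    intro w k h
    by_contra h'
    have h2 := pos_of_not_descent R.cm w k h'
    have h3 : rho R.cm w (al k) = 0 := by
      funext b
      have a1 := h b
      have a2 := h2 b
      simp only [Pi.neg_apply] at a1
      simp only [Pi.zero_apply]; linarith
    have h4 := rho_inv R.cm w (al k)
    rw [h3, map_zero] at h4
    have := congrFun h4 k
    simp at this
  have key : ∀ n (w : R.W) i j, i ≠ j → ¬ R.adj i j → R.cs.length w = n →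
      Pos (-rho R.cm w (al i)) → Pos (-rho R.cm w (al i + al j)) → False := by
    intro n
    induction n using Nat.strong_induction_on with
    | _ n ih =>
    intro w i j hij hn hl p1 p2
    have hc : cc R.cm i j = 2 := by
      have e : R.cm i j = 0 := by simp [RG.cm, hij, hn]
      simp [cc, e]
    have e1 : rho R.cm (w * R.s i) (al j) = rho R.cm w (al i + al j) + rho R.cm w (al i) := by
      rw [rm, rf_al, hc, ← map_add, two_smul]
      congr 1; abel
    have e2 : rho R.cm (w * R.s i) (al j + al i) = rho R.cm w (al i + al j) := by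
      rw [rm, map_add, rf_al, rf_self, hc, two_smul]
      congr 1; abel
    refine ih _ (hl ▸ desc w i p1) (w * R.s i) j i hij.symm (fun h => hn (R.symm _ _ h)) rfl ?_ ?_
    · rw [e1]
      intro b
      have a1 := p1 b
      have a2 := p2 b
      simp only [Pi.neg_apply, Pi.add_apply] at a1 a2 ⊢
      linarith
    · rw [e2]; exact p2
  refine key _ w i j hij hn rfl (neg w i hi) ?_
  rw [map_add]
  intro b
  have a1 := neg w i hi b
  have a2 := neg w j hj b
  simp only [Pi.neg_apply, Pi.add_apply] at a1 a2 ⊢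
  linarith

theorem desc_adj {x z : R.W} {i j : M} (hij : i ≠ j)
    (hi : R.N x (x * R.s i * x⁻¹) ≠ R.N z (x * R.s i * x⁻¹))
    (hj : R.N x (x * R.s j * x⁻¹) ≠ R.N z (x * R.s j * x⁻¹)) : R.adj i j := by
  have key : ∀ k, R.N x (x * R.s k * x⁻¹) ≠ R.N z (x * R.s k * x⁻¹) →
      R.cs.IsRightDescent (z⁻¹ * x) k := by
    intro k hk
    have := d_step_of_ne R hk
    rw [d_comm, d_comm R x, d, d, ← mul_assoc] at this
    show R.cs.length (z⁻¹ * x * R.s k) < R.cs.length (z⁻¹ * x)
    omega
  exact desc_adj' R hij (key i hi) (key j hj)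

/-- If a wall separates `x` from `y` and `z`, then one such wall touches `x`. -/
theorem exists_wall₂ {x y z : R.W} (h : ∃ r, R.N x r ≠ R.N y r ∧ R.N x r ≠ R.N z r) :
    ∃ j, R.N x (x * R.s j * x⁻¹) ≠ R.N y (x * R.s j * x⁻¹) ∧
      R.N x (x * R.s j * x⁻¹) ≠ R.N z (x * R.s j * x⁻¹) := by
  induction hn : d R x y using Nat.strong_induction_on generalizing x with
  | _ n ih =>
  obtain ⟨r, h1, h2⟩ := h
  obtain ⟨i, hi⟩ := exists_wall R (x := x) (y := y) (by rintro rfl; exact h1 rfl)
  by_cases hz : R.N x (x * R.s i * x⁻¹) = R.N z (x * R.s i * x⁻¹)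
  swap
  · exact ⟨i, hi, hz⟩
  have hr : r ≠ x * R.s i * x⁻¹ := by rintro rfl; exact h2 hz
  have hd := d_step_of_ne R hi
  obtain ⟨j, j1, j2⟩ := ih _ (by omega) (x := x * R.s i)
    ⟨r, by rwa [N_step_ne R x i hr], by rwa [N_step_ne R x i hr]⟩ rfl
  have e : x * R.s i * R.s i * (x * R.s i)⁻¹ = x * R.s i * x⁻¹ := by
    rw [mul_inv_rev, R.s_inv, mul_assoc x, R.s_s, mul_one, mul_assoc]
  have hij : i ≠ j := by
    rintro rfl
    rw [e, N_step_eq] at j1
    revert hi j1
    cases R.N x (x * R.s i * x⁻¹) <;> cases R.N y (x * R.s i * x⁻¹) <;> simp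
  have ha : R.adj i j := desc_adj R (x := x * R.s i) (z := z) hij (by
    rw [e, N_step_eq, hz]; simp) j2
  have e2 : x * R.s i * R.s j * (x * R.s i)⁻¹ = x * R.s j * x⁻¹ := by
    rw [mul_assoc x, R.s_comm ha]; group
  have hne : x * R.s j * x⁻¹ ≠ x * R.s i * x⁻¹ := fun h => hij (R.conj_inj h).symm
  rw [e2, N_step_ne R x i hne] at j1 j2
  exact ⟨j, j1, j2⟩

theorem exists_med (x y z : R.W) : ∃ m, ∀ r,
    R.N m r = ((R.N x r && R.N y r) || (R.N x r && R.N z r) || (R.N y r && R.N z r)) := by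
  induction hn : d R x y using Nat.strong_induction_on generalizing x with
  | _ n ih =>
  by_cases h : ∃ r, R.N x r ≠ R.N y r ∧ R.N x r ≠ R.N z r
  · obtain ⟨j, j1, j2⟩ := exists_wall₂ R h
    have hd := d_step_of_ne R j1
    obtain ⟨m, hm⟩ := ih _ (by omega) (x * R.s j) rfl
    refine ⟨m, fun r => ?_⟩
    rw [hm]
    by_cases hr : r = x * R.s j * x⁻¹
    · subst hr
      rw [N_step_eq]
      revert j1 j2
      cases R.N x (x * R.s j * x⁻¹) <;> cases R.N y (x * R.s j * x⁻¹) <;>
        cases R.N z (x * R.s j * x⁻¹) <;> simp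
    · rw [N_step_ne R x j hr]
  · refine ⟨x, fun r => ?_⟩
    have := not_exists.1 h r
    revert this
    cases R.N x r <;> cases R.N y r <;> cases R.N z r <;> simp

/-- The median. -/
noncomputable def med (x y z : R.W) : R.W := (exists_med R x y z).choose

theorem N_med (x y z r : R.W) : R.N (med R x y z) r =
    ((R.N x r && R.N y r) || (R.N x r && R.N z r) || (R.N y r && R.N z r)) :=
  (exists_med R x y z).choose_spec r

theorem s_mem_par {L : Set M} {i : M} (h : i ∈ L) : R.s i ∈ Par R L :=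
  Subgroup.subset_closure ⟨i, h, rfl⟩

theorem par_wall {L : Set M} {w : R.W} (h : w ∈ Par R L) :
    ∀ r, R.N w r = true → ∃ i ∈ L, ∃ u ∈ Par R L, r = u * R.s i * u⁻¹ := by
  induction h using Subgroup.closure_induction with
  | mem x hx =>
    obtain ⟨i, hi, rfl⟩ := hx
    intro r hr
    rw [R.N_s] at hr
    exact ⟨i, hi, 1, one_mem _, by simpa using hr⟩
  | one => intro r hr; simp [R.N_one] at hr
  | mul x y hx hy ihx ihy =>
    intro r hr
    rw [R.N_mul] at hr
    by_cases h1 : R.N x r = true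
    · exact ihx r h1
    · obtain ⟨i, hi, u, hu, e⟩ := ihy (x⁻¹ * r * x) (by simpa [h1] using hr)
      refine ⟨i, hi, x * u, mul_mem hx hu, ?_⟩
      calc r = x * (x⁻¹ * r * x) * x⁻¹ := by group
        _ = _ := by rw [e]; group
  | inv x hx ih =>
    intro r hr
    have e := R.N_mul x⁻¹ x r
    rw [inv_mul_cancel, R.N_one, hr] at e
    obtain ⟨i, hi, u, hu, e'⟩ := ih (x⁻¹⁻¹ * r * x⁻¹) (by simpa using e)
    refine ⟨i, hi, x⁻¹ * u, mul_mem (inv_mem hx) hu, ?_⟩
    calc r = x⁻¹ * (x⁻¹⁻¹ * r * x⁻¹) * x := by group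
      _ = _ := by rw [e']; group

theorem mem_par_iff {L : Set M} {x y : R.W} :
    x⁻¹ * y ∈ Par R L ↔ ∀ r, R.N x r ≠ R.N y r → ∃ i ∈ L, Ty R r i := by
  constructor
  · intro h r hr
    obtain ⟨i, hi, u, -, e⟩ := par_wall R h _ ((ne_iff R x y r).1 hr)
    refine ⟨i, hi, x * u, ?_⟩
    calc r = x * (x⁻¹ * r * x) * x⁻¹ := by group
      _ = _ := by rw [e]; group
  · intro h
    induction hn : d R x y using Nat.strong_induction_on generalizing x with
    | _ n ih =>
    by_cases hxy : x = y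
    · rw [hxy, inv_mul_cancel]; exact one_mem _
    obtain ⟨i, hi⟩ := exists_wall R hxy
    have hd := d_step_of_ne R hi
    obtain ⟨j, hj, ht⟩ := h _ hi
    obtain rfl : i = j := ty_unique R ⟨x, rfl⟩ ht
    have := ih _ (by omega) (x := x * R.s i) (fun r hr => h r fun e => hr (by
      rw [btw_step R hi r e, e])) rfl
    have e : x⁻¹ * y = R.s i * ((x * R.s i)⁻¹ * y) := by group
    rw [e]
    exact mul_mem (s_mem_par R hj) this

/-- Walls seen from `x` inside a coset of a standard subgroup lie in that subgroup. -/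
theorem wall_mem_par {L : Set M} {x y r : R.W} (h : x⁻¹ * y ∈ Par R L)
    (hr : R.N x r ≠ R.N y r) : x⁻¹ * r * x ∈ Par R L := by
  obtain ⟨i, hi, u, hu, e⟩ := par_wall R h _ ((ne_iff R x y r).1 hr)
  rw [e]
  exact mul_mem (mul_mem hu (s_mem_par R hi)) (inv_mem hu)

/-- Crossing walls have adjacent types. -/
theorem cross_adj {c a b e r r' : R.W} {i j : M} (h1 : R.N b r = R.N c r) (h2 : R.N e r = R.N a r)
    (h3 : R.N c r ≠ R.N a r) (h4 : R.N a r' = R.N c r') (h5 : R.N e r' = R.N b r')
    (h6 : R.N c r' ≠ R.N b r') (hi : Ty R r i) (hj : Ty R r' j) : R.adj i j := by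
  induction hn : d R c e using Nat.strong_induction_on generalizing c with
  | _ n ih =>
  have hrr : r ≠ r' := by rintro rfl; exact h3 h4.symm
  obtain ⟨k, k1, k2⟩ := exists_wall₂ R (x := c) (y := e) (z := a) ⟨r, by rwa [h2], h3⟩
  obtain ⟨l, l1, l2⟩ := exists_wall₂ R (x := c) (y := e) (z := b) ⟨r', by rwa [h5], h6⟩
  have step : ∀ k, R.N c (c * R.s k * c⁻¹) ≠ R.N e (c * R.s k * c⁻¹) → r ≠ c * R.s k * c⁻¹ →
      r' ≠ c * R.s k * c⁻¹ → R.adj i j := by
    intro k k1 a1 a2
    have hd := d_step_of_ne R k1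
    refine ih _ (by omega) (c := c * R.s k) ?_ ?_ ?_ ?_ rfl
    · rwa [N_step_ne R c k a1]
    · rwa [N_step_ne R c k a1]
    · rwa [N_step_ne R c k a2]
    · rwa [N_step_ne R c k a2]
  by_cases a1 : r = c * R.s k * c⁻¹
  swap
  · exact step k k1 a1 (by rintro rfl; exact k2 h4.symm)
  by_cases a2 : r' = c * R.s l * c⁻¹
  swap
  · exact step l l1 (by rintro rfl; exact l2 h1.symm) a2
  obtain rfl : i = k := ty_unique R hi ⟨c, a1⟩
  obtain rfl : j = l := ty_unique R hj ⟨c, a2⟩
  exact desc_adj R (by rintro rfl; exact hrr (a1.trans a2.symm)) k1 l1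

theorem par_comm {L : Set M} {u w : R.W} (hu : u ∈ Par R L) (hw : w ∈ Par R (Perp R L)) :
    u * w = w * u := by
  induction hu using Subgroup.closure_induction with
  | mem x hx =>
    obtain ⟨i, hi, rfl⟩ := hx
    induction hw using Subgroup.closure_induction with
    | mem y hy =>
      obtain ⟨j, hj, rfl⟩ := hy
      exact R.s_comm (hj i hi)
    | one => simp
    | mul a b _ _ ha hb => exact Commute.mul_right ha hb
    | inv a _ ha => exact Commute.inv_right ha
  | one => simp
  | mul a b _ _ ha hb => exact Commute.mul_left ha hb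
  | inv a _ ha => exact Commute.inv_left ha

/-- The fourth corner of a rectangle. -/
theorem N_fourth {L : Set M} {u w : R.W} (hu : u ∈ Par R L) (hw : w ∈ Par R (Perp R L))
    (c r : R.W) : R.N (c * u * w) r = xor (R.N (c * u) r) (xor (R.N c r) (R.N (c * w) r)) := by
  have key : R.N w ((c * u)⁻¹ * r * (c * u)) = R.N w (c⁻¹ * r * c) := by
    have e : (c * u)⁻¹ * r * (c * u) = u⁻¹ * (c⁻¹ * r * c) * u := by group
    rw [e]
    generalize c⁻¹ * r * c = t
    have m : ∀ t, R.N w t = true → u * t = t * u := fun t ht => par_comm R hu (by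
      have := wall_mem_par R (x := 1) (y := w) (r := t) (by simpa using hw)
        (by rw [R.N_one, ht]; simp)
      simpa using this)
    by_cases h1 : R.N w t = true
    · rw [mul_assoc, ← m t h1, inv_mul_cancel_left]
    · by_cases h2 : R.N w (u⁻¹ * t * u) = true
      · have h3 := m _ h2
        have : u⁻¹ * t * u = t := by
          apply mul_right_cancel (b := u)
          rw [← h3]; group
        rw [this]
      · simp only [Bool.not_eq_true] at h1 h2
        rw [h1, h2]
  rw [R.N_mul (c * u) w, R.N_mul c w, key]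
  cases R.N c r <;> simp

theorem btw_prod {L : Set M} {u w : R.W} (hu : u ∈ Par R L) (hw : w ∈ Par R (Perp R L))
    (c : R.W) : Btw R c (c * u) (c * u * w) := by
  intro r hr
  by_contra h
  obtain ⟨i, hi, ti⟩ := (mem_par_iff R (x := c) (y := c * u)).1 (by simpa using hu) r (Ne.symm h)
  obtain ⟨j, hj, tj⟩ := (mem_par_iff R (x := c * u) (y := c * u * w)).1
    (by rw [inv_mul_cancel_left]; exact hw) r
    (by rwa [← hr])
  obtain rfl := ty_unique R ti tj
  exact R.irrefl _ (hj i hi)

end Pool.Agent.Lib.MP_7eef47_al.U
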