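import Pool.Agent.Lib.MP_7eef47_al.U.Core

set_option autoImplicit false
set_option linter.unusedSectionVars false

namespace Pool.Agent.Lib.MP_7eef47_al.U

open Pool.Agent.Lib.MP_b03b3a_al

variable {M : Type} [Finite M] {R : RG M}

open Classical in
theorem exists_type (F : Finset R.W) (hne : F.Nonempty) (h : ∀ r ∈ F, ∃ i, Ty R r i) :
    ∃ i, F.card ≤ Nat.card M * (F.filter fun r => Ty R r i).card := by
  have := Fintype.ofFinite M
  obtain ⟨r, hr⟩ := hne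
  obtain ⟨i₀, -⟩ := h r hr
  obtain ⟨i, -, hi⟩ := Finset.exists_max_image Finset.univ
    (fun i => (F.filter fun r => Ty R r i).card) ⟨i₀, Finset.mem_univ _⟩
  refine ⟨i, ?_⟩
  rw [Nat.card_eq_fintype_card]
  refine le_trans (Finset.card_le_card (t := Finset.univ.biUnion
    fun i => F.filter fun r => Ty R r i) fun r hr => ?_)
    (Finset.card_biUnion_le_card_mul _ _ _ hi)
  obtain ⟨j, hj⟩ := h r hr
  exact Finset.mem_biUnion.2 ⟨j, Finset.mem_univ _, Finset.mem_filter.2 ⟨hr, hj⟩⟩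

/-- A long quasi-geodesic piece with ends near `H` has a point uniformly close to `H`. -/
theorem long_piece (S : Setup R) (L : ℕ) : ∃ r₀ : ℕ, ∀ E : ℕ, ∃ D₀ : ℕ,
    ∀ (β : ℕ → R.W) (l : ℕ), (∀ t, β t ∈ S.Y) → (∀ t, d R (β t) (β (t + 1)) ≤ L) →
    l ≤ L * d R (β 0) (β l) + L → S.Near E (β 0) → S.Near E (β l) → D₀ ≤ d R (β 0) (β l) →
    ∃ s ≤ l, S.Near r₀ (β s) := by
  classical
  obtain ⟨a₀, r₀, hcore⟩ := core S L ((3 * S.K + 2 * L) * (4 * Nat.card M))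
  refine ⟨r₀, fun E => ⟨4 * E + 2 * (Nat.card M * (a₀ + 1)) + 1, ?_⟩⟩
  rintro β l βY βd hl ⟨a, ha, da⟩ ⟨a', ha', da'⟩ hD
  obtain ⟨T, σ, σ0, σT, σH, σd, hT⟩ := S.path a ha a' ha'
  set F := sep R (β 0) (β l) \ (sep R a (β 0) ∪ sep R a' (β l)) with hF
  have cF : d R (β 0) (β l) ≤ F.card + 2 * E := by
    have h1 := Finset.le_card_sdiff (sep R a (β 0) ∪ sep R a' (β l)) (sep R (β 0) (β l))
    have h2 := Finset.card_union_le (sep R a (β 0)) (sep R a' (β l))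
    rw [card_sep, card_sep] at h2
    rw [card_sep, ← hF] at h1
    omega
  have mF : ∀ r ∈ F, R.N (β 0) r ≠ R.N (β l) r ∧ R.N a r = R.N (β 0) r ∧
      R.N a' r = R.N (β l) r := fun r hr => by
    simpa only [hF, Finset.mem_sdiff, Finset.mem_union, mem_sep, not_or, not_not] using hr
  obtain ⟨i, hi⟩ := exists_type F (Finset.card_pos.1 (by omega))
    (fun r hr => ty_of_sep R (mF r hr).1)
  have big : a₀ + 1 < (F.filter fun r => Ty R r i).card := by
    by_contra hn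
    have := Nat.mul_le_mul_left (Nat.card M) (not_lt.1 hn)
    omega
  obtain ⟨n, hn⟩ : ∃ n, (F.filter fun r => Ty R r i).card = n + 1 :=
    ⟨(F.filter fun r => Ty R r i).card - 1, by omega⟩
  obtain ⟨w, w1, w2, w3⟩ := chain R (x := β 0) (x' := β l) (i := i) n _ hn
    (fun r hr => ⟨(mF r (Finset.mem_filter.1 hr).1).1, (Finset.mem_filter.1 hr).2⟩)
  have mw := fun u => mF _ (Finset.mem_filter.1 (w1 u)).1
  refine hcore σ β w (β 0) T l n σH σd βY βd w2 w3 (fun u => ?_) (fun u => ?_) (fun u => ?_)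
    (fun u => (mw u).1.symm) (by omega) ?_
  · rw [σ0]
    exact not_not.2 (mw u).2.1
  · rw [σT]
    show R.N a' (w u) ≠ _
    rw [(mw u).2.2]
    exact (mw u).1.symm
  · exact not_not.2 rfl
  · have t1 := d_tri R a (β 0) a'
    have t2 := d_tri R (β 0) (β l) a'
    rw [d_comm R (β l)] at t2
    rw [hn] at hi big
    generalize d R (β 0) (β l) = D at *
    have h1 : d R a a' ≤ 2 * D := by omega
    have h2 : T ≤ 3 * S.K * D := by
      have := Nat.mul_le_mul_left S.K h1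
      have : S.K * 1 ≤ S.K * D := Nat.mul_le_mul_left _ (by omega)
      nlinarith
    have h3 : l ≤ 2 * L * D := by
      have : L * 1 ≤ L * D := Nat.mul_le_mul_left _ (by omega)
      nlinarith
    have h4 : D ≤ 4 * Nat.card M * n := by
      have : Nat.card M * (n + 1) ≤ Nat.card M * (2 * n) := Nat.mul_le_mul_left _ (by omega)
      have : D ≤ 2 * F.card := by omega
      nlinarith
    calc T + l ≤ (3 * S.K + 2 * L) * D := by rw [add_mul]; omega
      _ ≤ (3 * S.K + 2 * L) * (4 * Nat.card M * n) := Nat.mul_le_mul_left _ h4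
      _ = _ := by ring

theorem morse (S : Setup R) : Morse S := by
  classical
  intro L
  obtain ⟨r₀, h₀⟩ := long_piece S L
  obtain ⟨D₀, hD₀⟩ := h₀ (r₀ + L)
  refine ⟨r₀ + L + L * (L * D₀ + L), fun n x xY xd xq x0 xn i₀ hi₀ => ?_⟩
  by_cases hnear : S.Near r₀ (x i₀)
  · obtain ⟨h, hh, hd⟩ := hnear
    exact ⟨h, hh, by omega⟩
  have n0 : S.Near r₀ (x 0) := ⟨_, x0, by rw [d_self]; omega⟩
  have nn : S.Near r₀ (x n) := ⟨_, xn, by rw [d_self]; omega⟩
  obtain ⟨i₁, h1, h1n, h1m⟩ : ∃ i₁ < i₀, S.Near r₀ (x i₁) ∧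
      ∀ i, i₁ < i → i ≤ i₀ → ¬ S.Near r₀ (x i) := by
    have a1 := Nat.findGreatest_spec (P := fun i => S.Near r₀ (x i)) (Nat.zero_le i₀) n0
    refine ⟨Nat.findGreatest (fun i => S.Near r₀ (x i)) i₀,
      lt_of_le_of_ne (Nat.findGreatest_le _) fun e => hnear (e ▸ a1), a1,
      fun i hi hi' => Nat.findGreatest_is_greatest hi hi'⟩
  obtain ⟨i₂, h2, h2', h2n, h2m⟩ : ∃ i₂, i₀ < i₂ ∧ i₂ ≤ n ∧ S.Near r₀ (x i₂) ∧
      ∀ i, i₀ ≤ i → i < i₂ → ¬ S.Near r₀ (x i) := by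
    have ex : ∃ i, i₀ ≤ i ∧ S.Near r₀ (x i) := ⟨n, hi₀, nn⟩
    have a1 := Nat.find_spec ex
    exact ⟨Nat.find ex, lt_of_le_of_ne a1.1 fun e => hnear (e ▸ a1.2),
      Nat.find_min' ex ⟨hi₀, nn⟩, a1.2, fun i hi hi' h => Nat.find_min ex hi' ⟨hi, h⟩⟩
  obtain ⟨l, rfl⟩ : ∃ l, i₂ = i₁ + 1 + l + 1 := ⟨i₂ - i₁ - 2, by omega⟩
  have nb : S.Near (r₀ + L) (x (i₁ + 1)) := by
    obtain ⟨h, hh, hd⟩ := h1n
    have := d_tri R h (x i₁) (x (i₁ + 1))
    have := xd i₁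
    exact ⟨h, hh, by omega⟩
  have ne : S.Near (r₀ + L) (x (i₁ + 1 + l)) := by
    obtain ⟨h, hh, hd⟩ := h2n
    have := d_tri R h (x (i₁ + 1 + l + 1)) (x (i₁ + 1 + l))
    have := xd (i₁ + 1 + l)
    rw [d_comm] at this
    exact ⟨h, hh, by omega⟩
  have hl : l ≤ L * d R (x (i₁ + 1)) (x (i₁ + 1 + l)) + L := by
    have := xq (i₁ + 1) (i₁ + 1 + l) (by omega) (by omega)
    rwa [Nat.add_sub_cancel_left] at this
  have short : d R (x (i₁ + 1)) (x (i₁ + 1 + l)) ≤ D₀ := by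
    by_contra hn
    obtain ⟨s, hs, hs'⟩ := hD₀ (fun t => x (i₁ + 1 + t)) l (fun t => xY _) (fun t => xd _) hl nb ne
      (not_le.1 hn).le
    rcases le_total (i₁ + 1 + s) i₀ with h | h
    · exact h1m _ (by omega) h hs'
    · exact h2m _ h (by omega) hs'
  have := Nat.mul_le_mul_left L short
  have dd : d R (x (i₁ + 1)) (x i₀) ≤ L * (L * D₀ + L) := path_d' xd (by omega) (by omega)
  obtain ⟨h, hh, hd⟩ := nb
  have := d_tri R h (x (i₁ + 1)) (x i₀)
  exact ⟨h, hh, by omega⟩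

end Pool.Agent.Lib.MP_7eef47_al.U
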