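import Pool.Agent.Lib.MP_7eef47_al.U.Geo

set_option autoImplicit false
set_option linter.unusedSectionVars false

namespace Pool.Agent.Lib.MP_7eef47_al.U

open Pool.Agent.Lib.MP_b03b3a_al

variable {M : Type} [Finite M] (R : RG M)

/-- The wall `r` separates `A` from `B`. -/
def Seps (A B : Set R.W) (r : R.W) : Prop := ∀ y ∈ A, ∀ y' ∈ B, R.N y r ≠ R.N y' r

/-- Convex sets. -/
def Cvx (A : Set R.W) : Prop := ∀ x ∈ A, ∀ y ∈ A, ∀ z, Btw R x z y → z ∈ A

/-- Types of the walls that separate `A` from `B`. -/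
def Lam (A B : Set R.W) : Set M := {i | ∃ r, Seps R A B r ∧ Ty R r i}

/-- The side of the wall `r` that does not contain `o`. -/
def Far (o r : R.W) : Set R.W := {y | R.N y r ≠ R.N o r}

theorem btw_med1 (x y z : R.W) : Btw R x (med R x y z) y := by
  intro r h
  rw [N_med, ← h]
  cases R.N x r <;> cases R.N z r <;> rfl

theorem btw_med2 (x y z : R.W) : Btw R x (med R x y z) z := by
  intro r h
  rw [N_med, ← h]
  cases R.N x r <;> cases R.N y r <;> rfl

theorem btw_med3 (x y z : R.W) : Btw R y (med R x y z) z := by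
  intro r h
  rw [N_med, ← h]
  cases R.N x r <;> cases R.N y r <;> rfl

theorem btw_symm {x y z : R.W} (h : Btw R x z y) : Btw R y z x := fun r hr => by
  rw [h r hr.symm, hr]

theorem btw_d_le {x y z : R.W} (h : Btw R x z y) : d R x z ≤ d R x y := by
  have := (btw_iff R).1 h
  omega

theorem cvx_far (o r : R.W) : Cvx R (Far R o r) := by
  intro x hx y hy z hz
  simp only [Far, Set.mem_ofPred_eq] at *
  have : R.N x r = R.N y r := by
    revert hx hy
    cases R.N x r <;> cases R.N y r <;> cases R.N o r <;> simp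
  rw [hz r this]
  exact hx

theorem cvx_far_compl (o r : R.W) : Cvx R (Far R o r)ᶜ := by
  intro x hx y hy z hz
  simp only [Far, Set.mem_compl_iff, Set.mem_ofPred_eq, not_not] at *
  rw [hz r (hx.trans hy.symm)]
  exact hx

theorem bridge_side {A : Set R.W} (hA : Cvx R A) {p p' : R.W} (hp : p ∈ A)
    (hmin : ∀ m ∈ A, d R p p' ≤ d R m p') {r : R.W} (hr : R.N p r ≠ R.N p' r) {y : R.W}
    (hy : y ∈ A) : R.N y r = R.N p r := by
  by_contra hne
  have h1 : med R p y p' ∈ A := hA p hp y hy _ (btw_med1 R p y p')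
  have h2 := (btw_iff R).1 (btw_med2 R p y p')
  have h3 := hmin _ h1
  have h4 : p = med R p y p' := eq_of_d R (by omega)
  have h5 : R.N p r = R.N (med R p y p') r := by rw [← h4]
  rw [N_med] at h5
  revert h5 hne hr
  cases R.N p r <;> cases R.N y r <;> cases R.N p' r <;> simp

/-- A bridge between two convex sets. -/
theorem bridge {A B : Set R.W} (hA : Cvx R A) (hB : Cvx R B) {a b : R.W} (ha : a ∈ A)
    (hb : b ∈ B) : ∃ p ∈ A, ∃ p' ∈ B, ∀ r, R.N p r ≠ R.N p' r → Seps R A B r := by
  classical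
  have ex : ∃ n, ∃ p ∈ A, ∃ p' ∈ B, d R p p' = n := ⟨_, a, ha, b, hb, rfl⟩
  obtain ⟨p, hp, p', hp', e⟩ := Nat.find_spec ex
  refine ⟨p, hp, p', hp', fun r hr y hy y' hy' => ?_⟩
  have m1 : ∀ m ∈ A, d R p p' ≤ d R m p' := fun m hm => by
    rw [e]; exact Nat.find_min' ex ⟨m, hm, p', hp', rfl⟩
  have m2 : ∀ m ∈ B, d R p' p ≤ d R m p := fun m hm => by
    rw [d_comm R p' p, d_comm R m p, e]; exact Nat.find_min' ex ⟨p, hp, m, hm, rfl⟩
  rw [bridge_side R hA hp m1 hr hy, bridge_side R hB hp' m2 hr.symm hy']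
  exact hr

/-- A bridge that starts in a given interval. -/
theorem bridge_in {A B : Set R.W} (hA : Cvx R A) (hB : Cvx R B) {P P' : R.W} (ha : P ∈ A)
    (hb : P' ∈ B) : ∃ p ∈ A, ∃ p' ∈ B, Btw R P p P' ∧
      ∀ r, R.N p r ≠ R.N p' r → Seps R A B r := by
  obtain ⟨p, hp, p', hp', h⟩ := bridge R hA hB ha hb
  refine ⟨med R P P' p, hA P ha p hp _ (btw_med2 R P P' p), med R P P' p',
    hB P' hb p' hp' _ (btw_med3 R P P' p'), btw_med1 R P P' p, fun r hr => h r ?_⟩
  intro e
  apply hr
  rw [N_med, N_med, e]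

/-- The median of a bridge end and two points lies in the orthogonal coset. -/
theorem med_perp {A B : Set R.W} {p p' z z' : R.W} (hp : p ∈ A) (hp' : p' ∈ B) (hz : z ∈ A)
    (hz' : z' ∈ B) (h : ∀ r, R.N p r ≠ R.N p' r → Seps R A B r) :
    p⁻¹ * med R p z z' ∈ Par R (Perp R (Lam R A B)) := by
  rw [mem_par_iff]
  intro r hr
  obtain ⟨j, hj⟩ := ty_of_sep R hr
  refine ⟨j, ?_, hj⟩
  rintro i ⟨r', hs, hi⟩
  rw [N_med] at hr
  have e1 : R.N z' r = R.N z r := by
    revert hr
    cases R.N p r <;> cases R.N z r <;> cases R.N z' r <;> simp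
  have e2 : R.N p r ≠ R.N z r := by
    revert hr
    cases R.N p r <;> cases R.N z r <;> cases R.N z' r <;> simp
  have e3 : R.N p' r = R.N p r := by
    by_contra hne
    exact h r (fun e => hne e.symm) z hz z' hz' e1.symm
  have f1 := hs p hp p' hp'
  have f2 := hs z hz p' hp'
  have f3 := hs p hp z' hz'
  refine cross_adj R (c := p) (a := p') (b := z) (e := z') (r := r') (r' := r) ?_ ?_ f1 e3 e1 e2
    hi hj
  · revert f1 f2
    cases R.N p r' <;> cases R.N z r' <;> cases R.N p' r' <;> simp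
  · revert f1 f3
    cases R.N p r' <;> cases R.N z' r' <;> cases R.N p' r' <;> simp

theorem exists_edge {r : R.W} : ∀ (n : ℕ) (x y : R.W), d R x y = n → R.N x r ≠ R.N y r →
    ∃ z i, R.N z r ≠ R.N (z * R.s i) r := by
  intro n
  induction n with
  | zero =>
    intro x y h hr
    exact absurd (by rw [eq_of_d R h]) hr
  | succ n ih =>
    intro x y h hr
    have hne : x ≠ y := by rintro rfl; exact hr rfl
    obtain ⟨i, -, hi⟩ := exists_step R hne
    by_cases e : R.N x r = R.N (x * R.s i) r
    · exact ih (x * R.s i) y (by omega) (by rw [← e]; exact hr)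
    · exact ⟨x, i, e⟩

theorem far_inj {x x' r r' : R.W} (hr : R.N x r ≠ R.N x' r) (h : Far R x r = Far R x r') :
    r = r' := by
  obtain ⟨z, i, hz⟩ := exists_edge R _ x x' rfl hr
  have h1 : (sep R z (z * R.s i)).card = 1 := by rw [card_sep, d_step]
  have h2 : r' ∈ sep R z (z * R.s i) := by
    rw [mem_sep]
    have a1 : z ∈ Far R x r ↔ z ∈ Far R x r' := by rw [h]
    have a2 : z * R.s i ∈ Far R x r ↔ z * R.s i ∈ Far R x r' := by rw [h]
    simp only [Far, Set.mem_ofPred_eq] at a1 a2
    revert a1 a2 hz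
    cases R.N z r <;> cases R.N (z * R.s i) r <;> cases R.N x r <;> cases R.N z r' <;>
      cases R.N (z * R.s i) r' <;> cases R.N x r' <;> simp
  exact Finset.card_le_one.1 h1.le r ((mem_sep R).2 hz) r' h2

theorem far_total {x x' r r' : R.W} {i : M} (hr : R.N x r ≠ R.N x' r) (hr' : R.N x r' ≠ R.N x' r')
    (hi : Ty R r i) (hi' : Ty R r' i) : Far R x r ⊆ Far R x r' ∨ Far R x r' ⊆ Far R x r := by
  by_contra hn
  rw [not_or, Set.not_subset, Set.not_subset] at hn
  obtain ⟨⟨a, a1, a2⟩, b, b1, b2⟩ := hn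
  simp only [Far, Set.mem_ofPred_eq, not_not] at a1 a2 b1 b2
  refine R.irrefl i (cross_adj R (c := x) (a := a) (b := b) (e := x') (r := r) (r' := r') b2 ?_
    (Ne.symm a1) a2 ?_ (Ne.symm b1) hi hi')
  · revert hr a1
    cases R.N x r <;> cases R.N x' r <;> cases R.N a r <;> simp
  · revert hr' b1
    cases R.N x r' <;> cases R.N x' r' <;> cases R.N b r' <;> simp

/-- Walls of one type that separate two points form a chain. -/
theorem chain {x x' : R.W} {i : M} : ∀ (n : ℕ) (F : Finset R.W), F.card = n + 1 →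
    (∀ r ∈ F, R.N x r ≠ R.N x' r ∧ Ty R r i) →
    ∃ w : ℕ → R.W, (∀ u, w u ∈ F) ∧ (∀ u v, u ≤ v → Far R x (w v) ⊆ Far R x (w u)) ∧
      ∀ u v, u < v → v ≤ n → ∃ y ∈ Far R x (w u), y ∉ Far R x (w v) := by
  classical
  intro n
  induction n with
  | zero =>
    intro F hF _
    obtain ⟨a, rfl⟩ := Finset.card_eq_one.1 hF
    exact ⟨fun _ => a, fun _ => by simp, fun _ _ _ => le_rfl, fun u v h1 h2 => by omega⟩
  | succ n ih =>
    intro F hF h
    obtain ⟨r0, hr0, hmax⟩ := Finset.exists_maximalFor (fun r => Far R x r) F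
      (Finset.card_pos.1 (by omega))
    have top : ∀ r ∈ F, Far R x r ⊆ Far R x r0 := fun r hr => by
      rcases far_total R (h r hr).1 (h r0 hr0).1 (h r hr).2 (h r0 hr0).2 with h1 | h1
      · exact h1
      · exact hmax hr h1
    obtain ⟨w, w1, w2, w3⟩ := ih (F.erase r0) (by rw [Finset.card_erase_of_mem hr0]; omega)
      (fun r hr => h r (Finset.mem_of_mem_erase hr))
    refine ⟨fun u => Nat.casesOn u r0 w, ?_, ?_, ?_⟩
    · intro u
      cases u with
      | zero => exact hr0
      | succ u => exact Finset.mem_of_mem_erase (w1 u)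
    · intro u v huv
      cases u with
      | zero =>
        cases v with
        | zero => exact le_rfl
        | succ v => exact top _ (Finset.mem_of_mem_erase (w1 v))
      | succ u =>
        cases v with
        | zero => omega
        | succ v => exact w2 u v (by omega)
    · intro u v huv hv
      cases v with
      | zero => omega
      | succ v =>
        cases u with
        | zero =>
          by_contra hn
          have hsub : Far R x r0 ⊆ Far R x (w v) := fun y hy => by
            by_contra hy'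
            exact hn ⟨y, hy, hy'⟩
          have := far_inj R (h r0 hr0).1
            (Set.Subset.antisymm hsub (top _ (Finset.mem_of_mem_erase (w1 v))))
          exact (Finset.ne_of_mem_erase (w1 v)) this.symm
        | succ u => exact w3 u v (by omega) (by omega)

end Pool.Agent.Lib.MP_7eef47_al.U
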