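import Pool.Agent.Lib.MP_7eef47_al.Defs

set_option autoImplicit false

namespace Pool.Agent.Lib.MP_7eef47_al.U

/-- `Γ` lies in a convex set that stays at bounded distance from `Γ`. -/
def ConvexCocompact {B : Type} (M : CoxeterMatrix B) (Γ : Subgroup M.Group) : Prop :=
  ∃ (Y : Set M.Group) (q : ℕ), (∀ g ∈ Γ, g ∈ Y) ∧
    (∀ x ∈ Y, ∀ y ∈ Y, ∀ z, M.toCoxeterSystem.length (x⁻¹ * z) +
      M.toCoxeterSystem.length (z⁻¹ * y) = M.toCoxeterSystem.length (x⁻¹ * y) → z ∈ Y) ∧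
    ∀ y ∈ Y, ∃ g ∈ Γ, M.toCoxeterSystem.length (g⁻¹ * y) ≤ q

/-- `H` is finitely generated and its own word metric is linearly bounded by that of `S`. -/
def Undistorted {G : Type} [Group G] (S : Set G) (H : Subgroup G) : Prop :=
  ∃ (T : Set H) (K : ℝ), T.Finite ∧ Subgroup.closure T = ⊤ ∧
    ∀ x y : H, wordDist T x y ≤ K * wordDist S (x : G) (y : G) + K

/-- The centraliser of each element of infinite order of `H` meets finitely many cosets of `H`. -/
def CentralizerFinite {G : Type} [Group G] (H : Subgroup G) : Prop :=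
  ∀ h ∈ H, ¬ IsOfFinOrder h → ∃ F : Set G, F.Finite ∧
    ∀ g : G, g * h = h * g → ∃ t ∈ F, g * t⁻¹ ∈ H

end Pool.Agent.Lib.MP_7eef47_al.U
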