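import Pool.Agent.Lib.MP_7eef47_al.U.Setup

set_option autoImplicit false

namespace Pool.Agent.Lib.MP_7eef47_al.U

/-- Increments of a monotone sequence over disjoint blocks add up to at most the total. -/
theorem sum_blocks_le {t : ℕ → ℕ} (ht : Monotone t) (k₀ a Q : ℕ) :
    ∑ i ∈ Finset.range Q, (t (k₀ + i * (a + 1) + a) - t (k₀ + i * (a + 1))) + t k₀
      ≤ t (k₀ + Q * (a + 1)) := by
  induction Q with
  | zero => simp
  | succ Q ih =>
    rw [Finset.sum_range_succ]
    have h1 : t (k₀ + Q * (a + 1)) ≤ t (k₀ + Q * (a + 1) + a) := ht (by omega)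
    have h2 : t (k₀ + Q * (a + 1) + a) ≤ t (k₀ + (Q + 1) * (a + 1)) :=
      ht (by rw [Nat.add_mul Q 1 (a + 1)]; omega)
    omega

/-- Markov: at least half of the terms are at most twice the mean. -/
theorem half_good (Q c : ℕ) (u : ℕ → ℕ) (h : ∑ i ∈ Finset.range Q, u i ≤ c * Q) :
    Q ≤ 2 * ((Finset.range Q).filter (fun i => u i ≤ 2 * c)).card := by
  classical
  have hsplit := Finset.card_filter_add_card_filter_not (s := Finset.range Q)
    (fun i => u i ≤ 2 * c)
  rw [Finset.card_range] at hsplit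
  set b := ((Finset.range Q).filter (fun i => ¬ u i ≤ 2 * c)).card with hb
  have h1 : b * (2 * c + 1) ≤ ∑ i ∈ Finset.range Q, u i := by
    calc b * (2 * c + 1)
        = ∑ _i ∈ (Finset.range Q).filter (fun i => ¬ u i ≤ 2 * c), (2 * c + 1) := by
          simp [hb]
      _ ≤ ∑ i ∈ (Finset.range Q).filter (fun i => ¬ u i ≤ 2 * c), u i := by
          refine Finset.sum_le_sum fun i hi => ?_
          have := (Finset.mem_filter.mp hi).2
          omega
      _ ≤ ∑ i ∈ Finset.range Q, u i :=
          Finset.sum_le_sum_of_subset (Finset.filter_subset _ _)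
  have h2 : 2 * b ≤ Q := by
    by_contra hc
    have h3 : Q + 1 ≤ 2 * b := by omega
    have h4 : c * (Q + 1) ≤ c * (2 * b) := Nat.mul_le_mul_left c h3
    nlinarith
  omega

theorem win : WinThm := by
  classical
  intro M f m
  induction m with
  | zero =>
    intro κ
    refine ⟨0, 0, fun Λ t k₀ l₀ _ hne _ hc hkl _ => ?_⟩
    have := (hne k₀ l₀ (by omega)).card_pos
    omega
  | succ m ih =>
    intro κ
    obtain ⟨a₁, ρ₁, H⟩ := ih (8 * κ)
    set a := a₁ + 1 with ha
    set ρ := 8 * κ * a with hρ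
    refine ⟨2 * (f ρ + 1) * (a + 1), max ρ₁ ρ, fun Λ t k₀ l₀ hmono hne ht hc hkl hκ => ?_⟩
    set Q := (l₀ - k₀) / (a + 1) with hQ
    have hQ1 : 2 * (f ρ + 1) ≤ Q := by
      rw [hQ, Nat.le_div_iff_mul_le (by omega)]
      omega
    have hQ2 : Q * (a + 1) ≤ l₀ - k₀ := Nat.div_mul_le_self _ _
    have hQ3 : l₀ - k₀ < (Q + 1) * (a + 1) := by
      have := Nat.lt_div_mul_add (a := l₀ - k₀) (b := a + 1) (by omega)
      rw [← hQ] at this
      rw [Nat.add_mul Q 1 (a + 1)]
      omega
    have hk₀ : k₀ ≤ l₀ := by omega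
    have hblock : ∀ i, i < Q → k₀ + i * (a + 1) + a ≤ l₀ := by
      intro i hi
      have : (i + 1) * (a + 1) ≤ Q * (a + 1) := Nat.mul_le_mul_right _ hi
      rw [Nat.add_mul i 1 (a + 1)] at this
      omega
    have hsum : ∑ i ∈ Finset.range Q, (t (k₀ + i * (a + 1) + a) - t (k₀ + i * (a + 1)))
        ≤ (4 * κ * a) * Q := by
      have h1 := sum_blocks_le ht k₀ a Q
      have h2 : t (k₀ + Q * (a + 1)) ≤ t l₀ := ht (by omega)
      have h3 : (Q + 1) * (a + 1) ≤ (2 * Q) * (2 * a) :=
        Nat.mul_le_mul (by omega) (by omega)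
      have h4 : κ * (l₀ - k₀) ≤ κ * ((2 * Q) * (2 * a)) :=
        Nat.mul_le_mul_left _ (by omega)
      have h5 : κ * ((2 * Q) * (2 * a)) = (4 * κ * a) * Q := by ring
      omega
    have hgood := half_good Q (4 * κ * a) _ hsum
    have hρ' : 2 * (4 * κ * a) = ρ := by rw [hρ]; ring
    rw [hρ'] at hgood
    set G := (Finset.range Q).filter
      (fun i => t (k₀ + i * (a + 1) + a) - t (k₀ + i * (a + 1)) ≤ ρ) with hG
    by_cases hall : ∀ i ∈ G, Λ (k₀ + i * (a + 1)) (k₀ + i * (a + 1) + a) = Λ k₀ l₀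
    · have hcard : f ρ + 1 ≤ G.card := by omega
      let e := G.orderEmbOfCardLe hcard
      let idx : ℕ → ℕ := fun i => if h : i < f ρ + 1 then e ⟨i, h⟩ else 0
      have hidx : ∀ i, i ≤ f ρ → idx i ∈ G := by
        intro i hi
        have h : i < f ρ + 1 := by omega
        simp only [idx, dif_pos h]
        exact G.orderEmbOfCardLe_mem hcard _
      refine ⟨ρ, k₀, l₀, fun i => k₀ + idx i * (a + 1), fun i => k₀ + idx i * (a + 1) + a,
        le_max_right _ _, le_rfl, le_rfl, fun i hi => ?_, fun i j hij hj => ?_⟩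
      · have h1 := hidx i hi
        have h2 := Finset.mem_filter.mp h1
        exact ⟨Nat.le_add_right _ _, Nat.le_add_right _ _,
          hblock _ (Finset.mem_range.mp h2.1), h2.2, hall _ h1⟩
      · have hi' : i < f ρ + 1 := by omega
        have hj' : j < f ρ + 1 := by omega
        have hlt : idx i < idx j := by
          simp only [idx, dif_pos hi', dif_pos hj']
          exact e.strictMono (by simpa using hij)
        have : (idx i + 1) * (a + 1) ≤ idx j * (a + 1) := Nat.mul_le_mul_right _ hlt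
        rw [Nat.add_mul (idx i) 1 (a + 1)] at this
        show k₀ + idx i * (a + 1) + a < k₀ + idx j * (a + 1)
        omega
    · push Not at hall
      obtain ⟨i, hi, hne'⟩ := hall
      have h2 := Finset.mem_filter.mp hi
      have hb := hblock i (Finset.mem_range.mp h2.1)
      have hsub : Λ (k₀ + i * (a + 1)) (k₀ + i * (a + 1) + a) ⊆ Λ k₀ l₀ :=
        hmono _ _ _ _ (by omega) (by omega) hb
      have hlt := Finset.card_lt_card (Finset.ssubset_iff_subset_ne.mpr ⟨hsub, hne'⟩)
      obtain ⟨ρ', k₁, l₁, k, l, h1, h3, h4, h5, h6⟩ :=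
        H Λ t (k₀ + i * (a + 1)) (k₀ + i * (a + 1) + a) hmono hne ht (by omega) (by omega)
          (by
            have : k₀ + i * (a + 1) + a - (k₀ + i * (a + 1)) = a := by omega
            rw [this]
            exact h2.2)
      exact ⟨ρ', k₁, l₁, k, l, h1.trans (le_max_left _ _), by omega, by omega, h5, h6⟩

end Pool.Agent.Lib.MP_7eef47_al.U
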