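import Pool.Agent.Lib.MP_7eef47_al.U.Key
import Pool.Agent.Lib.MP_7eef47_al.U.Win

set_option autoImplicit false
set_option linter.unusedSectionVars false

namespace Pool.Agent.Lib.MP_7eef47_al.U

open Pool.Agent.Lib.MP_b03b3a_al

variable {M : Type} [Finite M] {R : RG M}

theorem first_time (p : ℕ → R.W) (T : ℕ) (A : ℕ → Set R.W) (anti : ∀ u v, u ≤ v → A v ⊆ A u)
    (h0 : ∀ u, p 0 ∉ A u) (hT : ∀ u, p T ∈ A u) :
    ∃ τ : ℕ → ℕ, Monotone τ ∧ ∀ u, τ u + 1 ≤ T ∧ p (τ u) ∉ A u ∧ p (τ u + 1) ∈ A u := by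
  classical
  have ex : ∀ u, ∃ t, p t ∈ A u := fun u => ⟨T, hT u⟩
  refine ⟨fun u => Nat.find (ex u) - 1, fun u v huv => ?_, fun u => ?_⟩
  · exact Nat.sub_le_sub_right (Nat.find_min' (ex u) (anti u v huv (Nat.find_spec (ex v)))) 1
  · have h1 : Nat.find (ex u) ≠ 0 := fun h => h0 u (h ▸ Nat.find_spec (ex u))
    have h2 := Nat.find_min' (ex u) (hT u)
    dsimp only
    refine ⟨by omega, Nat.find_min (ex u) (by omega), ?_⟩
    have : Nat.find (ex u) - 1 + 1 = Nat.find (ex u) := by omega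
    simp only [this]
    exact Nat.find_spec (ex u)

theorem path_d {p : ℕ → R.W} {K : ℕ} (h : ∀ t, d R (p t) (p (t + 1)) ≤ K) (i k : ℕ) :
    d R (p i) (p (i + k)) ≤ K * k := by
  induction k with
  | zero => simp [d_self]
  | succ k ih =>
    have h1 := d_tri R (p i) (p (i + k)) (p (i + k + 1))
    have h2 := h (i + k)
    rw [Nat.mul_succ, ← Nat.add_assoc]
    omega

theorem path_d' {p : ℕ → R.W} {K : ℕ} (h : ∀ t, d R (p t) (p (t + 1)) ≤ K) {i j n : ℕ}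
    (hij : i ≤ j) (hn : j - i ≤ n) : d R (p i) (p j) ≤ K * n := by
  obtain ⟨k, rfl⟩ := Nat.exists_eq_add_of_le hij
  exact (path_d h i k).trans (Nat.mul_le_mul_left K (by omega))

open Classical in
/-- The colours of the pigeonhole argument. -/
noncomputable def col (R : RG M) (K ρ : ℕ) : Finset (R.W × R.W) :=
  ball R (K * (ρ + 1)) ×ˢ (ball R K).biUnion fun b => sep R 1 b

theorem mem_col {K ρ : ℕ} {a a' c w : R.W} (h1 : d R a c ≤ K * (ρ + 1)) (h2 : d R a a' ≤ K)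
    (h3 : R.N a w ≠ R.N a' w) : (a⁻¹ * c, a⁻¹ * w * a) ∈ col R K ρ := by
  classical
  simp only [col, Finset.mem_product, Finset.mem_biUnion]
  refine ⟨mem_ball' h1, a⁻¹ * a', mem_ball' h2, ?_⟩
  rw [mem_sep]
  intro e
  apply h3
  have := N_conj R a⁻¹ a a' w
  rw [inv_mul_cancel, inv_inv] at this
  exact this.1 e

/-- Two paths that cross a dense chain of walls, one of them in `H`: the other one comes close
to `H`. -/
theorem core (S : Setup R) (L κ : ℕ) : ∃ a₀ r₀ : ℕ, ∀ (σ β w : ℕ → R.W) (o : R.W) (T l n : ℕ),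
    (∀ t, σ t ∈ S.H) → (∀ t, d R (σ t) (σ (t + 1)) ≤ S.K) → (∀ t, β t ∈ S.Y) →
    (∀ t, d R (β t) (β (t + 1)) ≤ L) → (∀ u v, u ≤ v → Far R o (w v) ⊆ Far R o (w u)) →
    (∀ u v, u < v → v ≤ n → ∃ y ∈ Far R o (w u), y ∉ Far R o (w v)) →
    (∀ u, σ 0 ∉ Far R o (w u)) → (∀ u, σ T ∈ Far R o (w u)) →
    (∀ u, β 0 ∉ Far R o (w u)) → (∀ u, β l ∈ Far R o (w u)) →
    a₀ ≤ n → T + l ≤ κ * n → ∃ s ≤ l, S.Near r₀ (β s) := by
  classical
  obtain ⟨a₀, ρ₀, hwin⟩ := win M (fun ρ => (col R S.K ρ).card) (Nat.card M) κ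
  obtain ⟨D, hD⟩ := S.good_pair S.vc (S.K * (ρ₀ + 1))
  refine ⟨a₀, D + L * (ρ₀ + 1), ?_⟩
  intro σ β w o T l n σH σd βY βd anti strict σ0 σT β0 βl hn hκ
  obtain ⟨τ, τm, hτ⟩ := first_time σ T (fun u => Far R o (w u)) anti σ0 σT
  obtain ⟨θ, θm, hθ⟩ := first_time β l (fun u => Far R o (w u)) anti β0 βl
  set Λ : ℕ → ℕ → Set M := fun u v => Lam R (Far R o (w u))ᶜ (Far R o (w v)) with hΛ
  have sepw : ∀ u v, u ≤ v → ∀ y, y ∉ Far R o (w u) → ∀ y' ∈ Far R o (w v),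
      R.N y (w u) ≠ R.N y' (w u) := fun u v huv y hy y' hy' => by
    have := anti u v huv hy'
    simp only [Far, Set.mem_ofPred_eq, not_not] at hy this
    rw [hy]
    exact this.symm
  obtain ⟨ρ, k₁, l₁, k, l', hρ, -, hl₁, hk, hord⟩ := hwin
    (fun u v => (Set.toFinite (Λ u v)).toFinset) (fun u => τ u + θ u) 0 n
    (fun k' k l l' h1 h2 h3 => by
      rw [Set.Finite.toFinset_subset_toFinset]
      rintro i ⟨r, hs, hi⟩
      exact ⟨r, fun y hy y' hy' => hs y (fun h => hy (anti _ _ h1 h)) y' (anti _ _ h3 hy'), hi⟩)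
    (fun u v huv => by
      obtain ⟨i, hi⟩ := ty_of_sep R (sepw u v huv _ (σ0 u) _ (σT v))
      exact ⟨i, by
        rw [Set.Finite.mem_toFinset]
        exact ⟨w u, fun y hy y' hy' => sepw u v huv y hy y' hy', hi⟩⟩)
    (τm.add θm)
    (by
      have := Fintype.ofFinite M
      rw [Nat.card_eq_fintype_card]
      exact Finset.card_le_univ _)
    (by omega)
    (by
      have h1 := (hτ n).1
      have h2 := (hθ n).1
      simp only [Nat.sub_zero]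
      omega)
  obtain ⟨P, hP, P', hP', hPP⟩ := bridge R (cvx_far_compl R o (w k₁)) (cvx_far R o (w l₁))
    (σ0 k₁) (σT l₁)
  have parP : P⁻¹ * P' ∈ Par R (Λ k₁ l₁) := (mem_par_iff R).2 fun r hr => by
    obtain ⟨i, hi⟩ := ty_of_sep R hr
    exact ⟨i, ⟨r, hPP r hr, hi⟩, hi⟩
  have hsub : ∀ i, ∃ p p' : R.W, i ≤ (col R S.K ρ).card → p ∉ Far R o (w (k i)) ∧
      p' ∈ Far R o (w (l' i)) ∧ Btw R P p P' ∧
      ∀ r, R.N p r ≠ R.N p' r → Seps R (Far R o (w (k i)))ᶜ (Far R o (w (l' i))) r := fun i => by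
    by_cases hi : i ≤ (col R S.K ρ).card
    · obtain ⟨h1, h2, h3, -⟩ := hk i hi
      obtain ⟨p, hp, p', hp', h⟩ := bridge_in R (cvx_far_compl R o (w (k i)))
        (cvx_far R o (w (l' i))) (P := P) (P' := P') (fun h => hP (anti _ _ h1 h))
        (anti _ _ h3 hP')
      exact ⟨p, p', fun _ => ⟨hp, hp', h⟩⟩
    · exact ⟨1, 1, fun h => absurd h hi⟩
  choose p p' hp using hsub
  have eΛ : ∀ i ≤ (col R S.K ρ).card, Λ (k i) (l' i) = Λ k₁ l₁ := fun i hi => by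
    have := (hk i hi).2.2.2.2
    exact Set.Finite.toFinset_inj.1 this
  have tb : ∀ i ≤ (col R S.K ρ).card, τ (k i) ≤ τ (l' i) ∧ τ (l' i) - τ (k i) ≤ ρ ∧
      θ (k i) ≤ θ (l' i) ∧ θ (l' i) - θ (k i) ≤ ρ := fun i hi => by
    obtain ⟨-, h2, -, h4, -⟩ := hk i hi
    have a1 := τm h2
    have a2 := θm h2
    omega
  set a : ℕ → R.W := fun i => σ (τ (k i)) with ha
  set c : ℕ → R.W := fun i => med R (p i) (a i) (σ (τ (l' i) + 1)) with hc
  have dc : ∀ i ≤ (col R S.K ρ).card, d R (a i) (c i) ≤ S.K * (ρ + 1) := fun i hi => by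
    have := tb i hi
    exact (btw_d_le R (btw_med3 R _ _ _)).trans (path_d' σd (by omega) (by omega))
  have pc : ∀ i ≤ (col R S.K ρ).card, (p i)⁻¹ * c i ∈ Par R (Perp R (Λ k₁ l₁)) := fun i hi => by
    rw [← eΛ i hi]
    exact med_perp R (hp i hi).1 (hp i hi).2.1 (hτ _).2.1 (hτ _).2.2 (hp i hi).2.2.2
  have two : ∃ i j, i < j ∧ j ≤ (col R S.K ρ).card ∧ (a i)⁻¹ * c i = (a j)⁻¹ * c j ∧
      (a i)⁻¹ * w (k i) * a i = (a j)⁻¹ * w (k j) * a j := by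
    obtain ⟨i, hi, j, hj, hne, e⟩ := Finset.exists_ne_map_eq_of_card_lt_of_maps_to
      (s := Finset.range ((col R S.K ρ).card + 1)) (t := col R S.K ρ) (by simp)
      (f := fun i => ((a i)⁻¹ * c i, (a i)⁻¹ * w (k i) * a i)) (fun i hi => by
        have : i ≤ (col R S.K ρ).card := by simpa [Nat.lt_succ_iff] using hi
        exact mem_col (dc i this) (σd _) (sepw _ _ le_rfl _ (hτ _).2.1 _ (hτ _).2.2))
    rw [Finset.mem_range] at hi hj
    simp only [Prod.mk.injEq] at e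
    rcases lt_or_gt_of_ne hne with h | h
    · exact ⟨i, j, h, by omega, e.1, e.2⟩
    · exact ⟨j, i, h, by omega, e.1.symm, e.2.symm⟩
  obtain ⟨i, j, hij, hj, e1, e2⟩ := two
  have hi : i ≤ (col R S.K ρ).card := by omega
  have kij : k i < k j := lt_of_le_of_lt (hk i hi).2.1 (hord i j hij hj)
  have gw : a j * (a i)⁻¹ * w (k i) * (a j * (a i)⁻¹)⁻¹ = w (k j) := by
    calc a j * (a i)⁻¹ * w (k i) * (a j * (a i)⁻¹)⁻¹
        = a j * ((a i)⁻¹ * w (k i) * a i) * (a j)⁻¹ := by group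
      _ = w (k j) := by rw [e2]; group
  have move : ∀ y, a j * (a i)⁻¹ * y ∈ Far R o (w (k j)) ↔ y ∈ Far R o (w (k i)) := fun y => by
    have h1 := N_conj R (a j * (a i)⁻¹) y (a i) (w (k i))
    rw [gw, inv_mul_cancel_right] at h1
    have h2 : a i ∉ Far R o (w (k i)) := (hτ _).2.1
    have h3 : a j ∉ Far R o (w (k j)) := (hτ _).2.1
    simp only [Far, Set.mem_ofPred_eq, not_not] at h2 h3 ⊢
    rw [← h2, ← h3]
    exact not_congr h1
  obtain ⟨y₀, y1, y2⟩ := strict (k i) (k j) kij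
    (((hk j hj).2.1.trans (hk j hj).2.2.1).trans hl₁)
  have parp : (p i)⁻¹ * p' i ∈ Par R (Λ k₁ l₁) := (mem_par_iff R).2 fun r hr => by
    obtain ⟨t, ht⟩ := ty_of_sep R hr
    rw [← eΛ i hi]
    exact ⟨t, ⟨r, (hp i hi).2.2.2 r hr, ht⟩, ht⟩
  have sp := sepw _ _ (hk i hi).2.1 _ (hp i hi).1 _ (hp i hi).2.1
  have lamP : (p i)⁻¹ * p j ∈ Par R (Λ k₁ l₁) := by
    have : (p i)⁻¹ * p j = (P⁻¹ * p i)⁻¹ * (P⁻¹ * p j) := by group
    rw [this]
    exact (Par R _).mul_mem ((Par R _).inv_mem (par_of_btw parP (hp i hi).2.2.1))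
      (par_of_btw parP (hp j hj).2.2.1)
  have cY : c i ∈ S.Y := S.conv _ (S.GY _ (S.HG (σH _))) _ (S.GY _ (S.HG (σH _))) _
    (btw_med3 R _ _ _)
  have muP := (Par R _).mul_mem ((Par R _).inv_mem (pc i hi)) (pc j hj)
  have eg : a j * (a i)⁻¹ =
      c i * ((p i)⁻¹ * p j * (((p i)⁻¹ * c i)⁻¹ * ((p j)⁻¹ * c j))) * (c i)⁻¹ := by
    have h1 := par_comm R lamP ((Par R _).inv_mem (pc i hi))
    calc a j * (a i)⁻¹ = a j * ((a i)⁻¹ * c i) * (c i)⁻¹ := by group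
      _ = c i * (((p i)⁻¹ * c i)⁻¹ * ((p i)⁻¹ * p j)) * ((p j)⁻¹ * c j) * (c i)⁻¹ := by
        rw [e1]; group
      _ = _ := by rw [← h1]; group
  have hinf := key (w := w (k i)) (o := o) (y₁ := (a j * (a i)⁻¹)⁻¹ * y₀) lamP muP eg
    (by
      have h1 := wall_mem_par R parp sp
      have h2 := par_comm R h1 (pc i hi)
      have : (c i)⁻¹ * w (k i) * c i =
          ((p i)⁻¹ * c i)⁻¹ * (((p i)⁻¹ * w (k i) * p i) * ((p i)⁻¹ * c i)) := by group
      rw [this, h2, inv_mul_cancel_left]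
      exact h1)
    ((mem_par_iff R).1 parp _ sp)
    (fun y hy => anti _ _ kij.le ((move y).2 hy))
    (fun h => y2 (by
      have := (move _).2 h
      rwa [mul_inv_cancel_left] at this))
    (by rw [mul_inv_cancel_left]; exact y1)
  have py : (p i)⁻¹ * med R (p i) (β (θ (k i))) (β (θ (l' i) + 1)) ∈
      Par R (Perp R (Λ k₁ l₁)) := by
    rw [← eΛ i hi]
    exact med_perp R (hp i hi).1 (hp i hi).2.1 (hθ _).2.1 (hθ _).2.2 (hp i hi).2.2.2
  have by3 := btw_med3 R (p i) (β (θ (k i))) (β (θ (l' i) + 1))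
  obtain ⟨h, hh, hd⟩ := hD (c i) _ _ _
    ⟨a i, σH _, (dc i hi).trans (Nat.mul_le_mul_left _ (by omega))⟩ cY lamP muP
    (eg ▸ S.H.mul_mem (σH _) (S.H.inv_mem (σH _))) hinf _ (S.conv _ (βY _) _ (βY _) _ by3) (by
      have : ∀ y, (c i)⁻¹ * y = ((p i)⁻¹ * c i)⁻¹ * ((p i)⁻¹ * y) := fun y => by group
      rw [this]
      exact (Par R _).mul_mem ((Par R _).inv_mem (pc i hi)) py)
  have tbi := tb i hi
  have d1 : d R (β (θ (k i))) (med R (p i) (β (θ (k i))) (β (θ (l' i) + 1))) ≤ L * (ρ₀ + 1) :=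
    (btw_d_le R by3).trans (path_d' βd (by omega) (by omega))
  refine ⟨θ (k i), by have := (hθ (k i)).1; omega, h, hh, ?_⟩
  have t2 := d_tri R h (med R (p i) (β (θ (k i))) (β (θ (l' i) + 1))) (β (θ (k i)))
  rw [d_comm] at d1
  omega

end Pool.Agent.Lib.MP_7eef47_al.U
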