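import Pool.Agent.Lib.MP_7eef47_al.Defs

set_option autoImplicit false

namespace Pool.Agent.Lib.MP_7eef47_al.U

/-- The word metric of `S` satisfies Gromov's four-point condition. -/
def WordHyperbolic {G : Type} [Group G] (S : Set G) : Prop :=
  ∃ δ : ℝ, ∀ x y z w : G, wordDist S x y + wordDist S z w ≤
    max (wordDist S x z + wordDist S y w) (wordDist S x w + wordDist S y z) + 2 * δ

end Pool.Agent.Lib.MP_7eef47_al.U
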