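import Pool.Agent.Lib.MP_7eef47_al.U.Transfer
import Pool.Agent.Lib.MP_7eef47_al.U.HypDef

set_option autoImplicit false
set_option linter.unusedSectionVars false

namespace Pool.Agent.Lib.MP_7eef47_al.U

namespace Hy

/-- A geodesic integer valued metric with the four-point condition. -/
structure Met (X : Type) where
  δ : X → X → ℕ
  e : ℕ
  self : ∀ x, δ x x = 0
  comm : ∀ x y, δ x y = δ y x
  tri : ∀ x y z, δ x z ≤ δ x y + δ y z
  geo : ∀ x y, ∃ q : ℕ → X, q 0 = x ∧ q (δ x y) = y ∧ ∀ t, δ (q t) (q (t + 1)) ≤ 1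
  four : ∀ x y z w, δ x y + δ z w ≤ max (δ x z + δ y w) (δ x w + δ y z) + e

theorem pathle {X : Type} {δ : X → X → ℕ} (h0 : ∀ x, δ x x = 0)
    (ht : ∀ x y z, δ x z ≤ δ x y + δ y z) {p : ℕ → X} {K : ℕ}
    (h : ∀ t, δ (p t) (p (t + 1)) ≤ K) {i j n : ℕ} (hij : i ≤ j) (hn : j - i ≤ n) :
    δ (p i) (p j) ≤ K * n := by
  obtain ⟨k, rfl⟩ := Nat.exists_eq_add_of_le hij
  refine le_trans ?_ (Nat.mul_le_mul_left K (show k ≤ n by omega))
  clear hij hn
  induction k with
  | zero => simp [h0]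
  | succ k ih =>
    have h1 := ht (p i) (p (i + k)) (p (i + k + 1))
    have h2 := h (i + k)
    rw [Nat.mul_succ, ← Nat.add_assoc]
    omega

theorem lin_le_pow (a s : ℕ) (h : 2 * a + 1 ≤ s) : a * (s + 1) ≤ 2 ^ s := by
  induction s, h using Nat.le_induction with
  | base =>
    have := Nat.two_mul_sq_add_one_le_two_pow_two_mul a
    rw [pow_succ]
    nlinarith [sq_nonneg ((a : ℤ) - 1), Nat.zero_le a]
  | succ s _ ih =>
    rw [pow_succ]
    nlinarith

variable {X : Type} (m : Met X)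

/-- Twice the Gromov product. -/
def gp (w x y : X) : ℤ := (m.δ w x : ℤ) + m.δ w y - m.δ x y

theorem gp_four {w x y z : X} {B : ℤ} (h1 : B ≤ gp m w x z) (h2 : B ≤ gp m w z y) :
    B - m.e ≤ gp m w x y := by
  have h := m.four x y z w
  have a1 := m.comm z w
  have a2 := m.comm y w
  have a3 := m.comm x w
  have a4 := m.comm y z
  unfold gp at *
  omega

theorem gp_comm (w x y : X) : gp m w x y = gp m w y x := by
  have := m.comm x y
  unfold gp
  omega

theorem gp_chain {w : X} {p : ℕ → X} {B : ℤ} : ∀ (k i l : ℕ), 1 ≤ l → l ≤ 2 ^ k →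
    (∀ j, i ≤ j → j < i + l → B ≤ gp m w (p j) (p (j + 1))) →
    B - k * m.e ≤ gp m w (p i) (p (i + l)) := by
  intro k
  induction k with
  | zero =>
    intro i l h1 h2 h
    obtain rfl : l = 1 := by omega
    simpa using h i le_rfl (by omega)
  | succ k ih =>
    intro i l h1 h2 h
    have e1 : B - ((k + 1 : ℕ) : ℤ) * m.e = B - k * m.e - m.e := by push_cast; ring
    rw [e1]
    by_cases hl : l ≤ 2 ^ k
    · have := ih i l h1 hl h
      omega
    · obtain ⟨l', rfl⟩ : ∃ l', l = 2 ^ k + l' := ⟨l - 2 ^ k, by omega⟩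
      rw [pow_succ] at h2
      have a1 := ih i (2 ^ k) Nat.one_le_two_pow le_rfl fun j h3 h4 => h j h3 (by omega)
      have a2 := ih (i + 2 ^ k) l' (by omega) (by omega) fun j h3 h4 => h j (by omega) (by omega)
      rw [← Nat.add_assoc]
      exact gp_four m a1 a2

theorem geo_btw (x y : X) : ∃ q : ℕ → X, q 0 = x ∧ q (m.δ x y) = y ∧
    (∀ t, m.δ (q t) (q (t + 1)) ≤ 1) ∧
    ∀ t ≤ m.δ x y, m.δ x (q t) = t ∧ m.δ (q t) y = m.δ x y - t := by
  obtain ⟨q, h0, h1, h2⟩ := m.geo x y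
  refine ⟨q, h0, h1, h2, fun t ht => ?_⟩
  have a1 := pathle m.self m.tri h2 (Nat.zero_le t) le_rfl
  have a2 := pathle m.self m.tri h2 ht le_rfl
  rw [h0] at a1
  rw [h1] at a2
  have := m.tri x (q t) y
  omega

theorem anchor {x w : X} {p : ℕ → X} {n D i₀ : ℕ} (hi₀ : i₀ ≤ n) (hx : p i₀ = x)
    (far : ∀ i ≤ n, D ≤ m.δ w (p i))
    (near : ∀ y, m.δ x y + m.δ y w = m.δ x w → ∃ i ≤ n, m.δ y (p i) ≤ D) :
    ∃ y, ∃ i ≤ n, m.δ x y + m.δ y w = m.δ x w ∧ m.δ w (p i) ≤ 3 * D ∧
      (2 * D : ℤ) ≤ gp m w y (p i) := by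
  by_cases h : m.δ x w ≤ 2 * D
  · refine ⟨x, i₀, hi₀, by rw [m.self, zero_add], by rw [hx, m.comm]; omega, ?_⟩
    have := far i₀ hi₀
    rw [hx] at this ⊢
    unfold gp
    rw [m.self]
    omega
  · obtain ⟨q, -, -, -, hq⟩ := geo_btw m x w
    obtain ⟨a1, a2⟩ := hq (m.δ x w - 2 * D) (by omega)
    obtain ⟨i, hi, a3⟩ := near (q (m.δ x w - 2 * D)) (by omega)
    have a4 := far i hi
    have a5 := m.tri w (q (m.δ x w - 2 * D)) (p i)
    have a6 := m.comm w (q (m.δ x w - 2 * D))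
    refine ⟨q (m.δ x w - 2 * D), i, hi, by omega, by omega, ?_⟩
    unfold gp
    omega

/-- Geodesics stay close to quasi-geodesics. -/
theorem near_path (L : ℕ) : ∃ D, ∀ (n : ℕ) (p : ℕ → X), (∀ t, m.δ (p t) (p (t + 1)) ≤ L) →
    (∀ i j, i ≤ j → j ≤ n → j - i ≤ L * m.δ (p i) (p j) + L) →
    ∀ w, m.δ (p 0) w + m.δ w (p n) = m.δ (p 0) (p n) → ∃ i ≤ n, m.δ w (p i) ≤ D := by
  classical
  refine ⟨L + 2 * m.e + (m.e + 1) * (2 * (7 * L * (m.e + 1)) + 1), fun n p hs hq => ?_⟩
  have ex : ∃ D, ∀ w, m.δ (p 0) w + m.δ w (p n) = m.δ (p 0) (p n) → ∃ i ≤ n, m.δ w (p i) ≤ D :=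
    ⟨m.δ (p 0) (p n), fun w hw => ⟨n, le_rfl, by omega⟩⟩
  have spec := Nat.find_spec ex
  have mini := fun k => Nat.find_min ex (m := k)
  generalize Nat.find ex = D at spec mini
  suffices h : D ≤ L + 2 * m.e + (m.e + 1) * (2 * (7 * L * (m.e + 1)) + 1) by
    intro w hw
    obtain ⟨i, hi, hd⟩ := spec w hw
    exact ⟨i, hi, hd.trans h⟩
  by_contra hD
  have hm := mini (D - 1) (by omega)
  push Not at hm
  obtain ⟨w, hw, far'⟩ := hm
  have far : ∀ i ≤ n, D ≤ m.δ w (p i) := fun i hi => by have := far' i hi; omega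
  obtain ⟨y, i, hi, y1, y2, y3⟩ := anchor m (Nat.zero_le n) rfl far fun y hy => spec y (by
    have := m.tri y w (p n)
    have := m.tri (p 0) y (p n)
    omega)
  obtain ⟨z, j, hj, z1, z2, z3⟩ := anchor m (le_refl n) rfl far fun z hz => spec z (by
    have := m.tri (p 0) w z
    have := m.tri (p 0) z (p n)
    have := m.comm z w
    have := m.comm (p n) z
    have := m.comm (p n) w
    omega)
  have yz : gp m w y z ≤ 0 := by
    have := m.tri (p 0) y (p n)
    have := m.tri y z (p n)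
    have := m.comm z w
    have := m.comm y w
    have := m.comm (p n) z
    have := m.comm (p n) w
    unfold gp
    omega
  have s1 : 2 * (7 * L * (m.e + 1)) + 1 ≤ D / (m.e + 1) := by
    rw [Nat.le_div_iff_mul_le (by omega), mul_comm]
    omega
  have s2 := lin_le_pow _ _ s1
  have s3 : D < (m.e + 1) * (D / (m.e + 1) + 1) := Nat.lt_mul_div_succ D (by omega)
  have s4 : D / (m.e + 1) * (m.e + 1) ≤ D := Nat.div_mul_le_self _ _
  generalize D / (m.e + 1) = s at s1 s2 s3 s4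
  have s5 : L * (6 * D) + L ≤ 2 ^ s := by
    have : 7 * L * D ≤ 7 * L * ((m.e + 1) * (s + 1)) := Nat.mul_le_mul_left _ s3.le
    have : L * 1 ≤ L * D := Nat.mul_le_mul_left _ (by omega)
    nlinarith
  have main : ∀ i j, i ≤ j → j ≤ n → m.δ w (p i) ≤ 3 * D → m.δ w (p j) ≤ 3 * D →
      (2 * D - L : ℤ) - s * m.e ≤ gp m w (p i) (p j) := fun i j hij hj a1 a2 => by
    rcases Nat.eq_or_lt_of_le hij with rfl | hlt
    · have := far i hj
      have : (0 : ℤ) ≤ s * m.e := by positivity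
      unfold gp
      rw [m.self]
      omega
    · have b1 := hq i j hij hj
      have b2 := m.tri (p i) w (p j)
      have b3 := m.comm (p i) w
      have b4 : L * m.δ (p i) (p j) ≤ L * (6 * D) := Nat.mul_le_mul_left _ (by omega)
      have := gp_chain m (w := w) (p := p) (B := 2 * D - L) s i (j - i) (by omega) (by omega)
        fun t h1 h2 => by
          have := far t (by omega)
          have := far (t + 1) (by omega)
          have := hs t
          unfold gp
          omega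
      rwa [Nat.add_sub_cancel' hij] at this
  have ij : (2 * D - L : ℤ) - s * m.e ≤ gp m w (p i) (p j) := by
    rcases le_total i j with h | h
    · exact main i j h hj y2 z2
    · rw [gp_comm]
      exact main j i h hi z2 y2
  have se : (0 : ℤ) ≤ s * m.e := by positivity
  have c1 := gp_four m (B := (2 * D - L : ℤ) - s * m.e) (le_trans (by omega) y3) ij
  have c2 := gp_four m c1 (y := z) (by rw [gp_comm]; omega)
  have s6 : (s : ℤ) * m.e ≤ D := by
    have : s * m.e ≤ D := le_trans (Nat.mul_le_mul_left _ (by omega)) s4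
    exact_mod_cast this
  omega

/-- Two quasi-geodesics with the same ends stay close. -/
theorem fellow (L : ℕ) : ∃ D, ∀ (n T : ℕ) (p σ : ℕ → X), (∀ t, m.δ (p t) (p (t + 1)) ≤ L) →
    (∀ i j, i ≤ j → j ≤ n → j - i ≤ L * m.δ (p i) (p j) + L) →
    (∀ t, m.δ (σ t) (σ (t + 1)) ≤ L) →
    (∀ i j, i ≤ j → j ≤ T → j - i ≤ L * m.δ (σ i) (σ j) + L) → σ 0 = p 0 → σ T = p n →
    ∀ i ≤ n, ∃ j, m.δ (σ j) (p i) ≤ D := by
  classical
  obtain ⟨D, hD⟩ := near_path m L
  refine ⟨2 * D + L * (L * (2 * D + 1) + L), fun n T p σ hp hp' hσ hσ' e0 e1 i hi => ?_⟩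
  obtain ⟨q, q0, q1, q2, q3⟩ := geo_btw m (p 0) (p n)
  have btw : ∀ t ≤ m.δ (p 0) (p n), m.δ (p 0) (q t) + m.δ (q t) (p n) = m.δ (p 0) (p n) :=
    fun t ht => by have := q3 t ht; omega
  have P0 : ∃ a ≤ i, m.δ (q 0) (p a) ≤ D := ⟨0, Nat.zero_le _, by rw [q0, m.self]; omega⟩
  obtain ⟨a, ha, da⟩ := Nat.findGreatest_spec (P := fun t => ∃ a ≤ i, m.δ (q t) (p a) ≤ D)
    (Nat.zero_le (m.δ (p 0) (p n))) P0
  have tle := Nat.findGreatest_le (P := fun t => ∃ a ≤ i, m.δ (q t) (p a) ≤ D) (m.δ (p 0) (p n))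
  have tmax := fun k => Nat.findGreatest_is_greatest
    (P := fun t => ∃ a ≤ i, m.δ (q t) (p a) ≤ D) (n := m.δ (p 0) (p n)) (k := k)
  generalize Nat.findGreatest (fun t => ∃ a ≤ i, m.δ (q t) (p a) ≤ D) (m.δ (p 0) (p n)) = t at *
  have hb : ∃ b, i ≤ b ∧ b ≤ n ∧ m.δ (p a) (p b) ≤ 2 * D + 1 := by
    rcases Nat.eq_or_lt_of_le tle with h | h
    · rw [h, q1, m.comm] at da
      exact ⟨n, hi, le_rfl, by omega⟩
    · obtain ⟨b, hb, db⟩ := hD n p hp hp' _ (btw (t + 1) h)
      refine ⟨b, ?_, hb, ?_⟩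
      · by_contra hn
        exact tmax (t + 1) (by omega) h ⟨b, by omega, db⟩
      · have := m.tri (p a) (q t) (p b)
        have := m.tri (q t) (q (t + 1)) (p b)
        have := q2 t
        have := m.comm (p a) (q t)
        omega
  obtain ⟨b, b1, b2, b3⟩ := hb
  have c1 := hp' a b (by omega) b2
  have c2 := Nat.mul_le_mul_left L b3
  have c3 : m.δ (p a) (p i) ≤ L * (L * (2 * D + 1) + L) := pathle m.self m.tri hp ha (by omega)
  obtain ⟨j, -, dj⟩ := hD T σ hσ hσ' (q t) (by rw [e0, e1]; exact btw t tle)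
  have := m.tri (σ j) (q t) (p i)
  have := m.tri (q t) (p a) (p i)
  have := m.comm (σ j) (q t)
  exact ⟨j, by omega⟩

variable {G : Type} [Group G]

theorem step_le {S : Set G} {p : ℕ → G}
    (h : ∀ t, p t = p (t + 1) ∨ ∃ s ∈ S, p t * s = p (t + 1) ∨ p t = p (t + 1) * s) (t : ℕ) :
    (SimpleGraph.mulCayley S).dist (p t) (p (t + 1)) ≤ 1 := by
  by_cases e : p t = p (t + 1)
  · rw [← e]; simp
  · exact (SimpleGraph.dist_eq_one_iff_adj.2
      ((SimpleGraph.mulCayley_adj' S _ _).2 ⟨e, (h t).resolve_left e⟩)).le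

/-- From the discrete statement to strong quasiconvexity. -/
theorem sqc {S : Set G} (hS : Subgroup.closure S = ⊤) {H : Subgroup G}
    (hM : ∀ L : ℕ, ∃ M₀ : ℕ, ∀ (n : ℕ) (x : ℕ → G),
      (∀ i, (SimpleGraph.mulCayley S).dist (x i) (x (i + 1)) ≤ L) →
      (∀ i j, i ≤ j → j ≤ n → j - i ≤ L * (SimpleGraph.mulCayley S).dist (x i) (x j) + L) →
      x 0 ∈ H → x n ∈ H → ∀ i ≤ n, ∃ h ∈ H, (SimpleGraph.mulCayley S).dist h (x i) ≤ M₀) :
    StronglyQuasiconvex S H := by
  intro K C hK hC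
  obtain ⟨N, hN⟩ := exists_nat_ge (K + C)
  obtain ⟨M₀, hM₀⟩ := hM (N + N * N + 1)
  refine ⟨N + M₀, fun γ a b hγ ha hb t ht => ?_⟩
  obtain ⟨hab, hγ⟩ := hγ
  have close : ∀ s ∈ Set.Icc a b, ∀ u ∈ Set.Icc a b, |s - u| ≤ 1 →
      (SimpleGraph.mulCayley S).dist (γ s) (γ u) ≤ N := by
    intro s hs u hu h
    have h1 := (hγ s hs u hu).2
    have h2 : K * |s - u| ≤ K := by nlinarith
    unfold wordDist at h1
    exact_mod_cast (by linarith : ((SimpleGraph.mulCayley S).dist (γ s) (γ u) : ℝ) ≤ N)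
  have hτ : ∀ i : ℕ, min (a + i) b ∈ Set.Icc a b := fun i =>
    ⟨le_min (by have : (0 : ℝ) ≤ i := Nat.cast_nonneg i; linarith) hab, min_le_right _ _⟩
  have hn := Nat.ceil_lt_add_one (sub_nonneg.2 hab)
  have hn' := Nat.le_ceil (b - a)
  have main := hM₀ ⌈b - a⌉₊ (fun i => γ (min (a + i) b)) (fun i => by
      have h1 := close _ (hτ i) _ (hτ (i + 1)) (by
        rw [abs_le]
        push_cast
        rcases le_total (a + i) b with h | h <;> rcases le_total (a + (i + 1)) b with h' | h' <;>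
          simp only [min_eq_left, min_eq_right, h, h'] <;> constructor <;> linarith)
      omega)
    (fun i j hij hj => by
      have h1 := (hγ _ (hτ i) _ (hτ j)).1
      unfold wordDist at h1
      generalize (SimpleGraph.mulCayley S).dist (γ (min (a + i) b)) (γ (min (a + j) b)) = D
        at h1 ⊢
      have hj' : (j : ℝ) ≤ ⌈b - a⌉₊ := by exact_mod_cast hj
      have h3 : (j : ℝ) - i - 1 ≤ |min (a + i) b - min (a + j) b| := by
        rw [abs_sub_comm]
        refine le_trans ?_ (le_abs_self _)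
        have b1 : min (a + i) b ≤ a + i := min_le_left _ _
        have b2 : a + j - 1 ≤ min (a + j) b := le_min (by linarith) (by linarith)
        linarith
      have h4 : |min (a + i) b - min (a + j) b| ≤ (D + C) * K := by
        rw [← div_le_iff₀ (by linarith)]
        linarith
      have hD : (0 : ℝ) ≤ D := Nat.cast_nonneg D
      have h5 : ((D : ℝ) + C) * K ≤ (D + N) * N :=
        mul_le_mul (by linarith) (by linarith) (by linarith) (by linarith)
      have h6 : j ≤ i + 1 + (D + N) * N := by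
        exact_mod_cast (by linarith : (j : ℝ) ≤ i + 1 + (D + N) * N)
      have h8 : (D + N) * N = N * D + N * N := by ring
      have h9 : (N + N * N + 1) * D = N * D + (N * N + 1) * D := by ring
      omega)
    (by simp only [Nat.cast_zero, add_zero, min_eq_left hab]; exact ha)
    (by rw [min_eq_right (by linarith)]; exact hb)
  have hf := Nat.floor_le (sub_nonneg.2 ht.1)
  have hf' := Nat.lt_floor_add_one (t - a)
  obtain ⟨g, hg, hd⟩ := main ⌊t - a⌋₊
    ((Nat.floor_mono (by linarith [ht.2])).trans (Nat.floor_le_ceil (b - a)))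
  refine ⟨g, hg, ?_⟩
  have h1 := close t ht _ (hτ ⌊t - a⌋₊) (by
    rw [min_eq_left (by linarith [ht.2]), abs_le]
    constructor <;> linarith)
  have h4 : (SimpleGraph.mulCayley S).dist (γ t) g ≤
      (SimpleGraph.mulCayley S).dist (γ t) (γ (min (a + ⌊t - a⌋₊) b)) +
      (SimpleGraph.mulCayley S).dist (γ (min (a + ⌊t - a⌋₊) b)) g := (Tr.conn hS).dist_triangle
  rw [SimpleGraph.dist_comm] at hd
  unfold wordDist
  exact_mod_cast (by omega : (SimpleGraph.mulCayley S).dist (γ t) g ≤ N + M₀)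

end Hy

/-- Undistorted subgroups of word hyperbolic groups are strongly quasiconvex. -/
theorem sqc_of_hyp {G : Type} [Group G] {S : Set G} (hS : Subgroup.closure S = ⊤)
    (hyp : WordHyperbolic S) {H : Subgroup G} (hU : Undistorted S H) :
    StronglyQuasiconvex S H := by
  obtain ⟨δ, hδ⟩ := hyp
  obtain ⟨e, he⟩ := exists_nat_ge (2 * δ)
  let m : Hy.Met G :=
    { δ := (SimpleGraph.mulCayley S).dist
      e := e
      self := fun _ => SimpleGraph.dist_self
      comm := fun _ _ => SimpleGraph.dist_comm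
      tri := fun _ _ _ => (Tr.conn hS).dist_triangle
      geo := fun x y => by
        obtain ⟨q, h0, h1, h2⟩ := Tr.geod hS x y
        exact ⟨q, h0, h1, Hy.step_le h2⟩
      four := fun x y z w => by
        have := hδ x y z w
        unfold wordDist at this
        exact_mod_cast this.trans (add_le_add le_rfl he) }
  obtain ⟨T, K, hT, hTc, hK⟩ := hU
  obtain ⟨N, hN⟩ := exists_nat_ge K
  obtain ⟨E, hE⟩ := Tr.bdd hT fun s : H => (SimpleGraph.mulCayley S).dist 1 (s : G)
  have hE' : ∀ x : G, ∀ s ∈ T, (SimpleGraph.mulCayley S).dist x (x * (s : G)) ≤ E :=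
    fun x s hs => by
      have := hE s hs
      rwa [← Tr.dist_mul hS x, mul_one] at this
  refine Hy.sqc hS fun L => ?_
  obtain ⟨D, hD⟩ := Hy.fellow m (L + N + E)
  refine ⟨D, fun n x xd xq x0 xn i hi => ?_⟩
  obtain ⟨σ, σ0, σ1, σ2⟩ := Tr.geod hTc (⟨x 0, x0⟩ : H) ⟨x n, xn⟩
  obtain ⟨j, hj⟩ := hD n ((SimpleGraph.mulCayley T).dist (⟨x 0, x0⟩ : H) ⟨x n, xn⟩) x
    (fun t => (σ t : G)) (fun t => (xd t).trans (by omega))
    (fun i j h1 h2 => (xq i j h1 h2).trans
      (add_le_add (Nat.mul_le_mul_right _ (by omega)) (by omega)))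
    (fun t => by
      show (SimpleGraph.mulCayley S).dist _ _ ≤ _
      rcases σ2 t with h | ⟨s, hs, h | h⟩
      · rw [h]; simp
      · rw [← h]
        exact (hE' _ s hs).trans (by omega)
      · rw [h, SimpleGraph.dist_comm]
        exact (hE' _ s hs).trans (by omega))
    (fun i j h1 h2 => by
      have tri : ∀ x y z : H, (SimpleGraph.mulCayley T).dist x z ≤
          (SimpleGraph.mulCayley T).dist x y + (SimpleGraph.mulCayley T).dist y z :=
        fun _ _ _ => (Tr.conn hTc).dist_triangle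
      have a1 := Hy.pathle (fun _ => SimpleGraph.dist_self) tri (Hy.step_le σ2)
        (Nat.zero_le i) le_rfl
      have a2 := Hy.pathle (fun _ => SimpleGraph.dist_self) tri (Hy.step_le σ2) h2 le_rfl
      rw [σ0] at a1
      rw [σ1] at a2
      have a3 := tri ⟨x 0, x0⟩ (σ i) ⟨x n, xn⟩
      have a4 := tri (σ i) (σ j) ⟨x n, xn⟩
      have a5 := hK (σ i) (σ j)
      unfold wordDist at a5
      have a6 : (SimpleGraph.mulCayley T).dist (σ i) (σ j) ≤
          N * (SimpleGraph.mulCayley S).dist (σ i : G) (σ j) + N := by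
        exact_mod_cast a5.trans (add_le_add
          (mul_le_mul_of_nonneg_right hN (Nat.cast_nonneg _)) hN)
      have a7 : N * (SimpleGraph.mulCayley S).dist (σ i : G) (σ j) ≤
          (L + N + E) * (SimpleGraph.mulCayley S).dist (σ i : G) (σ j) :=
        Nat.mul_le_mul_right _ (by omega)
      show _ ≤ (L + N + E) * (SimpleGraph.mulCayley S).dist (σ i : G) (σ j) + _
      omega)
    (by simp only [σ0]) (by simp only [σ1]) i hi
  exact ⟨σ j, (σ j).2, hj⟩

end Pool.Agent.Lib.MP_7eef47_al.U
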