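import Pool.Agent.Lib.MP_7eef47_al.U.Pair
import Pool.Agent.Lib.MP_7eef47_al.U.Bridge

set_option autoImplicit false
set_option linter.unusedSectionVars false

namespace Pool.Agent.Lib.MP_7eef47_al.U

open Pool.Agent.Lib.MP_b03b3a_al

variable {M : Type} [Finite M] {R : RG M}

/-- The ball around the identity. -/
noncomputable def ball (R : RG M) (n : ℕ) : Finset R.W := (ball_finite R n).toFinset

theorem mem_ball {n : ℕ} {w : R.W} : w ∈ ball R n ↔ d R 1 w ≤ n := by simp [ball]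

theorem mem_ball' {n : ℕ} {x y : R.W} (h : d R x y ≤ n) : x⁻¹ * y ∈ ball R n := by
  rw [mem_ball, ← d_mul R x, mul_one, mul_inv_cancel_left]
  exact h

theorem par_of_btw {L : Set M} {x y z : R.W} (h : x⁻¹ * y ∈ Par R L) (hz : Btw R x z y) :
    x⁻¹ * z ∈ Par R L := by
  rw [mem_par_iff] at h ⊢
  intro r hr
  exact h r fun e => hr (hz r e).symm

theorem skew {A : Set R.W} {g y₁ : R.W} (hA : ∀ y ∈ A, g * y ∈ A) (h2 : g * y₁ ∈ A) {n : ℕ}
    (hn : 1 ≤ n) : g ^ n * y₁ ∈ A := by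
  induction n, hn using Nat.le_induction with
  | base => rw [pow_one]; exact h2
  | succ n _ ih => rw [pow_succ', mul_assoc]; exact hA _ ih

/-- If a product of two orthogonal parts skewers a wall of the first factor, the first part has
infinite order. -/
theorem key {L : Set M} {c g lam mu w o y₁ : R.W}
    (hl : lam ∈ Par R L) (hm : mu ∈ Par R (Perp R L)) (eg : g = c * (lam * mu) * c⁻¹)
    (hw : c⁻¹ * w * c ∈ Par R L) (hty : ∃ i ∈ L, Ty R w i)
    (hA : ∀ y ∈ Far R o w, g * y ∈ Far R o w) (h1 : y₁ ∉ Far R o w) (h2 : g * y₁ ∈ Far R o w) :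
    ¬ IsOfFinOrder lam := by
  have cm : Commute lam mu := par_comm R hl hm
  have gn : ∀ n : ℕ, g ^ n = c * (lam ^ n * mu ^ n) * c⁻¹ := fun n => by
    rw [eg, conj_pow, cm.mul_pow]
  have fix : ∀ u ∈ Par R (Perp R L), ∀ y, R.N (c * u * c⁻¹ * y) w = R.N y w := fun u hu y => by
    have a1 : c * u * c⁻¹ * w * (c * u * c⁻¹)⁻¹ = w := by
      have := par_comm R hw hu
      calc c * u * c⁻¹ * w * (c * u * c⁻¹)⁻¹ = c * (u * (c⁻¹ * w * c)) * u⁻¹ * c⁻¹ := by group
        _ = w := by rw [← this]; group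
    have a2 : R.N (c * u) w = R.N c w := by
      by_contra hne
      obtain ⟨j, hj, tj⟩ := (mem_par_iff R (L := Perp R L) (x := c) (y := c * u)).1
        (by rw [inv_mul_cancel_left]; exact hu) w (Ne.symm hne)
      obtain ⟨i, hi, ti⟩ := hty
      have := ty_unique R ti tj
      subst this
      exact R.irrefl _ (hj _ hi)
    have a3 := N_conj R (c * u * c⁻¹) y c w
    rw [a1, inv_mul_cancel_right, a2] at a3
    revert a3
    cases R.N (c * u * c⁻¹ * y) w <;> cases R.N y w <;> cases R.N c w <;> simp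
  rw [isOfFinOrder_iff_pow_eq_one]
  rintro ⟨n, hn, h⟩
  have a1 := skew hA h2 hn
  rw [gn, h, one_mul] at a1
  apply h1
  simp only [Far, Set.mem_ofPred_eq] at a1 ⊢
  rwa [fix _ ((Par R _).pow_mem hm n)] at a1

end Pool.Agent.Lib.MP_7eef47_al.U
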