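import Pool.Agent.Lib.MP_7eef47_al.U.Setup

set_option autoImplicit false
set_option linter.unusedSectionVars false

namespace Pool.Agent.Lib.MP_7eef47_al.U

open Pool.Agent.Lib.MP_b03b3a_al

/-- Centralisers in `G` of elements of infinite order of `H` meet finitely many cosets of `H`. -/
def VC {W : Type} [Group W] (G H : Subgroup W) : Prop :=
  ∀ h ∈ H, ¬ IsOfFinOrder h → ∃ F : Set W, F.Finite ∧
    ∀ g ∈ G, g * h = h * g → ∃ t ∈ F, g * t⁻¹ ∈ H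

theorem vc_of_maln {W : Type} [Group W] {G H : Subgroup W}
    (hm : ∀ g ∈ G, g ∉ H → {x | x ∈ H ∧ g⁻¹ * x * g ∈ H}.Finite) : VC G H := by
  intro h hh ho
  refine ⟨{1}, Set.finite_singleton _, fun g hg hc => ⟨1, rfl, ?_⟩⟩
  rw [inv_one, mul_one]
  by_contra hn
  refine Set.infinite_of_injective_forall_mem (injective_pow_iff_not_isOfFinOrder.2 ho)
    (fun n => ?_) (hm g hg hn)
  refine ⟨pow_mem hh n, ?_⟩
  have : Commute g (h ^ n) := Commute.pow_right hc n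
  rw [mul_assoc, ← this.eq, inv_mul_cancel_left]
  exact pow_mem hh n

/-- If the powers of `x` fall in finitely many classes, a proper power lies in `K`. -/
theorem exists_pow_mem {W : Type} [Group W] {K : Subgroup W} {x e : W} {F : Set W} (hF : F.Finite)
    (h : ∀ n : ℕ, ∃ t ∈ F, x ^ n * e * t⁻¹ ∈ K) : ∃ k : ℕ, 0 < k ∧ x ^ k ∈ K := by
  choose t h1 h2 using h
  obtain ⟨m, -, n, -, hmn, e'⟩ := Set.infinite_univ.exists_lt_map_eq_of_mapsTo
    (f := t) (fun n _ => h1 n) hF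
  obtain ⟨k, rfl⟩ := Nat.exists_eq_add_of_lt hmn
  refine ⟨k + 1, by omega, ?_⟩
  have := mul_mem (h2 (m + k + 1)) (inv_mem (h2 m))
  rw [← e'] at this
  convert this using 1
  rw [show m + k + 1 = k + 1 + m by omega, pow_add x (k + 1) m]
  group

variable {M : Type} [Finite M] {R : RG M}

theorem Setup.colour (S : Setup R) {y : R.W} (hy : y ∈ S.Y) :
    ∃ t ∈ {w : R.W | d R 1 w ≤ S.q}, y * t⁻¹ ∈ S.G := by
  obtain ⟨g, hg, h⟩ := S.near y hy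
  refine ⟨g⁻¹ * y, ?_, by simpa using hg⟩
  rwa [Set.mem_ofPred_eq, ← d_mul R g, mul_one, mul_inv_cancel_left]

theorem Setup.pair (S : Setup R) (hvc : VC S.G S.H) {e a b : R.W} {L : Set M} (he : e ∈ S.Y)
    (ha : a ∈ Par R L) (hb : b ∈ Par R (Perp R L)) (hg : e * (a * b) * e⁻¹ ∈ S.H)
    (ho : ¬ IsOfFinOrder a) :
    ∃ D, ∀ y ∈ S.Y, e⁻¹ * y ∈ Par R (Perp R L) → S.Near D y := by
  classical
  have hab : Commute a b := par_comm R ha hb
  have gp : ∀ n : ℕ, (e * (a * b) * e⁻¹) ^ n = e * (a ^ n * b ^ n) * e⁻¹ := fun n => by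
    rw [conj_pow, hab.mul_pow]
  have go : ¬ IsOfFinOrder (e * (a * b) * e⁻¹) := by
    rw [isOfFinOrder_iff_pow_eq_one] at ho ⊢
    rintro ⟨n, hn, h1⟩
    refine ho ⟨n, hn, R.eq_one_of_N fun r => ?_⟩
    have h2 : a ^ n * b ^ n = 1 := by
      rw [gp] at h1
      simpa using h1
    have := btw_prod R (pow_mem ha n) (pow_mem hb n) 1 r (by rw [one_mul, h2])
    rwa [one_mul, R.N_one] at this
  obtain ⟨k, hk, k1⟩ := exists_pow_mem (K := S.G) (x := e * a * e⁻¹) (e := e)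
    (ball_finite R S.q) fun n => by
      apply S.colour
      rw [conj_pow, inv_mul_cancel_right]
      refine S.conv e he _ ?_ _ (btw_prod R (pow_mem ha n) (pow_mem hb n) e)
      have := S.inv _ (S.HG (pow_mem hg n)) e he
      rwa [gp, inv_mul_cancel_right, ← mul_assoc] at this
  obtain ⟨F, hF, f1⟩ := hvc _ hg go
  have cm : ∀ x, Commute a x → Commute (e * a * e⁻¹) (e * x * e⁻¹) := fun x hx => by
    show _ = _
    calc e * a * e⁻¹ * (e * x * e⁻¹) = e * (a * x) * e⁻¹ := by group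
      _ = _ := by rw [hx.eq]; group
  obtain ⟨l, hl, l1⟩ := exists_pow_mem (K := S.H) (x := (e * a * e⁻¹) ^ k) (e := 1) hF fun n => by
    rw [mul_one]
    exact f1 _ (pow_mem k1 n)
      (((cm _ ((Commute.refl a).mul_right hab)).pow_left k).pow_left n)
  have lo : ¬ IsOfFinOrder (((e * a * e⁻¹) ^ k) ^ l) := by
    rw [isOfFinOrder_iff_pow_eq_one] at ho ⊢
    rintro ⟨n, hn, h1⟩
    refine ho ⟨k * l * n, by positivity, ?_⟩
    rw [← pow_mul, ← pow_mul, conj_pow, ← mul_assoc k] at h1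
    simpa using h1
  obtain ⟨F', hF', f2⟩ := hvc _ l1 lo
  have rep : ∀ t : R.W, ∃ z : R.W, ∀ y, e⁻¹ * y ∈ Par R (Perp R L) → y * t⁻¹ ∈ S.G →
      e⁻¹ * z ∈ Par R (Perp R L) ∧ z * t⁻¹ ∈ S.G := fun t => by
    by_cases h : ∃ z, e⁻¹ * z ∈ Par R (Perp R L) ∧ z * t⁻¹ ∈ S.G
    · obtain ⟨z, hz⟩ := h
      exact ⟨z, fun _ _ _ => hz⟩
    · exact ⟨1, fun y h1 h2 => absurd ⟨y, h1, h2⟩ h⟩
  choose z hz using rep
  obtain ⟨D, hD⟩ := ((hF'.prod (ball_finite R S.q)).image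
    fun x : R.W × R.W => d R 1 (x.1 * z x.2)).bddAbove
  refine ⟨D, fun y hy h1 => ?_⟩
  obtain ⟨t, ht, h2⟩ := S.colour hy
  obtain ⟨z1, z2⟩ := hz t y h1 h2
  obtain ⟨u, hu, h3⟩ := f2 (y * (z t)⁻¹) (by
    have := mul_mem h2 (inv_mem z2)
    convert this using 1
    group) (by
    have := cm _ (par_comm R ha (mul_mem h1 (inv_mem z1)))
    have e1 : e * (e⁻¹ * y * (e⁻¹ * z t)⁻¹) * e⁻¹ = y * (z t)⁻¹ := by group
    rw [e1] at this
    exact ((this.pow_left k).pow_left l).symm)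
  refine ⟨_, h3, le_trans (le_of_eq ?_) (hD ⟨(u, t), ⟨hu, ht⟩, rfl⟩)⟩
  show _ = d R 1 (u * z t)
  rw [← d_mul R (y * (z t)⁻¹ * u⁻¹) 1]
  congr 1 <;> group

/-- A coset near `H`, kept by an element of `H` that translates along the other factor, is
uniformly close to `H`. -/
theorem Setup.good_pair (S : Setup R) (hvc : VC S.G S.H) (ρ : ℕ) : ∃ D, ∀ (c a b : R.W) (L : Set M),
    S.Near ρ c → c ∈ S.Y → a ∈ Par R L → b ∈ Par R (Perp R L) → c * (a * b) * c⁻¹ ∈ S.H →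
    ¬ IsOfFinOrder a → ∀ y ∈ S.Y, c⁻¹ * y ∈ Par R (Perp R L) → S.Near D y := by
  have key : ∀ x : R.W × Set M, ∃ D, ∀ a b, x.1 ∈ S.Y → a ∈ Par R x.2 → b ∈ Par R (Perp R x.2) →
      x.1 * (a * b) * x.1⁻¹ ∈ S.H → ¬ IsOfFinOrder a →
      ∀ y ∈ S.Y, x.1⁻¹ * y ∈ Par R (Perp R x.2) → S.Near D y := by
    intro x
    by_cases h : ∃ a b, x.1 ∈ S.Y ∧ a ∈ Par R x.2 ∧ b ∈ Par R (Perp R x.2) ∧
        x.1 * (a * b) * x.1⁻¹ ∈ S.H ∧ ¬ IsOfFinOrder a
    · obtain ⟨a, b, h1, h2, h3, h4, h5⟩ := h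
      obtain ⟨D, hD⟩ := S.pair hvc h1 h2 h3 h4 h5
      exact ⟨D, fun _ _ _ _ _ _ _ => hD⟩
    · exact ⟨0, fun a b h1 h2 h3 h4 h5 => absurd ⟨a, b, h1, h2, h3, h4, h5⟩ h⟩
  choose D hD using key
  obtain ⟨D₀, h₀⟩ := (((ball_finite R ρ).prod (Set.finite_univ (α := Set M))).image D).bddAbove
  refine ⟨D₀, ?_⟩
  rintro c a b L ⟨h, hh, hc⟩ cY ha hb hg ho y hy h1
  have hG := S.HG (inv_mem hh)
  obtain ⟨h', hh', h2⟩ := hD (h⁻¹ * c, L) a b (S.inv _ hG c cY) ha hb (by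
    have := mul_mem (mul_mem (inv_mem hh) hg) hh
    convert this using 1
    group) ho (h⁻¹ * y) (S.inv _ hG y hy) (by simpa [mul_assoc] using h1)
  refine ⟨h * h', mul_mem hh hh', ?_⟩
  rw [← d_mul R h, mul_inv_cancel_left] at h2
  refine h2.trans (h₀ ⟨_, ⟨?_, trivial⟩, rfl⟩)
  show d R 1 (h⁻¹ * c) ≤ ρ
  rwa [← d_mul R h, mul_one, mul_inv_cancel_left]

end Pool.Agent.Lib.MP_7eef47_al.U
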