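import Pool.Agent.Lib.MP_7eef47_al.U.Geo
import Pool.Agent.Lib.MP_7eef47_al.U.Cond

set_option autoImplicit false
set_option linter.unusedSectionVars false

namespace Pool.Agent.Lib.MP_7eef47_al.U

open Pool.Agent.Lib.MP_b03b3a_al

variable {M : Type} [Finite M]

/-- The data of the proof, inside the Coxeter group. -/
structure Setup (R : RG M) where
  G : Subgroup R.W
  H : Subgroup R.W
  Y : Set R.W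
  q : ℕ
  K : ℕ
  K_pos : 1 ≤ K
  HG : H ≤ G
  GY : ∀ g ∈ G, g ∈ Y
  conv : ∀ x ∈ Y, ∀ y ∈ Y, ∀ z, Btw R x z y → z ∈ Y
  inv : ∀ g ∈ G, ∀ y ∈ Y, g * y ∈ Y
  near : ∀ y ∈ Y, ∃ g ∈ G, d R g y ≤ q
  vc : ∀ h ∈ H, ¬ IsOfFinOrder h →
    ∃ F : Set R.W, F.Finite ∧ ∀ g ∈ G, g * h = h * g → ∃ t ∈ F, g * t⁻¹ ∈ H
  path : ∀ h ∈ H, ∀ h' ∈ H, ∃ (T : ℕ) (p : ℕ → R.W), p 0 = h ∧ p T = h' ∧ (∀ t, p t ∈ H) ∧
    (∀ t, d R (p t) (p (t + 1)) ≤ K) ∧ T ≤ K * d R h h' + K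

variable {R : RG M}

/-- `y` is within `n` of `H`. -/
def Setup.Near (S : Setup R) (n : ℕ) (y : R.W) : Prop := ∃ h ∈ S.H, d R h y ≤ n

/-- The Morse property for discrete quasi-geodesics in `Y`. -/
def Morse (S : Setup R) : Prop :=
  ∀ L : ℕ, ∃ M₀ : ℕ, ∀ (n : ℕ) (x : ℕ → R.W), (∀ i, x i ∈ S.Y) →
    (∀ i, d R (x i) (x (i + 1)) ≤ L) →
    (∀ i j, i ≤ j → j ≤ n → j - i ≤ L * d R (x i) (x j) + L) →
    x 0 ∈ S.H → x n ∈ S.H → ∀ i ≤ n, S.Near M₀ (x i)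

/-- The window lemma: nested pigeonhole on a monotone family of finite sets. -/
def WinThm : Prop :=
  ∀ (M : Type) (f : ℕ → ℕ) (m κ : ℕ), ∃ a₀ ρ₀ : ℕ, ∀ (Λ : ℕ → ℕ → Finset M) (t : ℕ → ℕ) (k₀ l₀ : ℕ),
    (∀ k' k l l', k' ≤ k → k ≤ l → l ≤ l' → Λ k l ⊆ Λ k' l') → (∀ k l, k ≤ l → (Λ k l).Nonempty) →
    Monotone t → (Λ k₀ l₀).card ≤ m → k₀ + a₀ ≤ l₀ → t l₀ - t k₀ ≤ κ * (l₀ - k₀) →
    ∃ (ρ k₁ l₁ : ℕ) (k l : ℕ → ℕ), ρ ≤ ρ₀ ∧ k₀ ≤ k₁ ∧ l₁ ≤ l₀ ∧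
      (∀ i ≤ f ρ, k₁ ≤ k i ∧ k i ≤ l i ∧ l i ≤ l₁ ∧ t (l i) - t (k i) ≤ ρ ∧
        Λ (k i) (l i) = Λ k₁ l₁) ∧ ∀ i j, i < j → j ≤ f ρ → l i < k j

/-- The final statement for one defining graph. -/
def Final (R : RG M) : Prop :=
  ∀ (G : Type) [Group G] (G₀ : Subgroup G) [G₀.FiniteIndex] (ι : G₀ →* R.cm.Group),
    Function.Injective ι → ConvexCocompact R.cm ι.range → ∀ S : Set G, S.Finite →
    Subgroup.closure S = ⊤ → ∀ H : Subgroup G, Undistorted S H → CentralizerFinite H →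
    StronglyQuasiconvex S H

end Pool.Agent.Lib.MP_7eef47_al.U
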